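import Pool.Agent.H19.SR.Defs

/-!
# Project S6, module S2: the cap product with a cocycle and the cycles of its cone

`θ` is a cochain of degree `d` on the cube complex of `P` with values in `K`; only the values `θ H p`, `H` a clique
with `d` elements, `D.b p v = 0` for `v ∈ H`, matter. The cap product with `θ` maps the chains of degree `m` with
coefficients in `J → K`, `J` over `P`, to the chains of degree `m - d`.
-/

set_option autoImplicit false
set_option linter.unusedSectionVars false

open Finset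

namespace Pool.Agent.S6

open Pool.Agent.H77.SW Pool.Agent.H19.SR

variable {V : Type} [DecidableEq V] [Fintype V]

/-- The factor of the cap product: at the vertex `p` of the cell with the free letters `B ∪ H` the value of `θ` at
the face of this cell with the free letters `H` on which the letters in `B` are `0`; `0` if some letter in `H` is
`0` at `p`. `β` are the bits. -/
noncomputable def cs {K : Type} [Field K] {P : Type} [Group P] (g : V → P) (β : P → V → ZMod 2)
    (θ : Finset V → P → K) (B H : Finset V) (p : P) : K :=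
  if ∀ v ∈ H, β p v = 1 then θ H (p * gp g ((B ∪ H).filter fun v => β p v = 1)) else 0

/-- The cap product with the factors `c` as a linear map: `(cap z) B = ∑ H, c B H * z (B ∪ H)`, over all `H` disjoint
from `B` with `d` elements. -/
def capc {K : Type} [Field K] {J : Type} (c : Finset V → Finset V → J → K) (d : ℕ) :
    (Finset V → J → K) →ₗ[K] (Finset V → J → K) where
  toFun z B j := ∑ H ∈ Bᶜ.powersetCard d, c B H j * z (B ∪ H) j
  map_add' z w := by
    funext B j
    simp only [Pi.add_apply, mul_add, sum_add_distrib]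
  map_smul' k z := by
    funext B j
    simp only [Pi.smul_apply, smul_eq_mul, RingHom.id_apply, mul_sum]
    exact sum_congr rfl fun H _ => by ring

/-- The cap product with `θ` for the coefficients in the extension module `rE D s t` -/
noncomputable def capE {K : Type} [Field K] {G : SimpleGraph V} {P : Type} [Group P] (D : PG G P)
    (d : ℕ) (θ : Finset V → P → K) :
    (Finset V → (Finset V × P → K)) →ₗ[K] (Finset V → (Finset V × P → K)) :=
  capc (fun B H x => cs D.g D.b θ B H x.2) d

theorem capE_apply {K : Type} [Field K] {G : SimpleGraph V} {P : Type} [Group P] (D : PG G P)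
    (d : ℕ) (θ : Finset V → P → K) (z : Finset V → (Finset V × P → K)) (B : Finset V)
    (x : Finset V × P) : capE D d θ z B x =
      ∑ H ∈ Bᶜ.powersetCard d, (if ∀ v ∈ H, D.b x.2 v = 1 then
        θ H (x.2 * gp D.g ((B ∪ H).filter fun v => D.b x.2 v = 1)) else 0) * z (B ∪ H) x := rfl

/-- The pairs `(z, y)`, `z` a cycle of degree `i`, `y` a chain of degree `e` whose boundary is `φ z` -/
def ZC (K : Type) [Field K] (G : SimpleGraph V) (i e : ℕ) {Y : Type} [AddCommGroup Y] [Module K Y]
    (r : V → Y →ₗ[K] Y) (φ : (Finset V → Y) →ₗ[K] (Finset V → Y)) :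
    Submodule K ((Finset V → Y) × (Finset V → Y)) where
  carrier := {x | x.1 ∈ Zs K G i r ∧ (∀ σ, x.2 σ ≠ 0 → G.IsClique (σ : Set V) ∧ σ.card = e) ∧
    (∀ σ, ∀ v ∈ σ, r v (x.2 σ) = x.2 σ) ∧ ∀ κ, ∑ v ∈ κᶜ, x.2 (insert v κ) = φ x.1 κ}
  zero_mem' := by
    refine ⟨Submodule.zero_mem _, fun σ h => absurd rfl h, fun σ v _ => ?_, fun κ => ?_⟩
    · simp
    · simp
  add_mem' := by
    rintro z w ⟨h0, h1, h2, h3⟩ ⟨h0', h4, h5, h6⟩
    refine ⟨Submodule.add_mem _ h0 h0', fun σ h => ?_, fun σ v hv => ?_, fun κ => ?_⟩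
    · by_cases hz : z.2 σ = 0
      · by_cases hw : w.2 σ = 0
        · exact absurd (by simp [hz, hw]) h
        · exact h4 σ hw
      · exact h1 σ hz
    · rw [Prod.snd_add, Pi.add_apply, map_add, h2 σ v hv, h5 σ v hv]
    · simp only [Prod.snd_add, Prod.fst_add, Pi.add_apply, sum_add_distrib, h3 κ, h6 κ, map_add]
  smul_mem' := by
    rintro c z ⟨h0, h1, h2, h3⟩
    refine ⟨Submodule.smul_mem _ c h0, fun σ h => h1 σ fun h0 => h ?_, fun σ v hv => ?_, fun κ => ?_⟩
    · rw [Prod.smul_snd, Pi.smul_apply, h0, smul_zero]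
    · rw [Prod.smul_snd, Pi.smul_apply, map_smul, h2 σ v hv]
    · simp only [Prod.smul_snd, Prod.smul_fst, Pi.smul_apply, ← smul_sum, h3 κ, map_smul]

theorem mem_ZC {K : Type} [Field K] {G : SimpleGraph V} {i e : ℕ} {Y : Type} [AddCommGroup Y]
    [Module K Y] {r : V → Y →ₗ[K] Y} {φ : (Finset V → Y) →ₗ[K] (Finset V → Y)}
    {x : (Finset V → Y) × (Finset V → Y)} : x ∈ ZC K G i e r φ ↔
      x.1 ∈ Zs K G i r ∧ (∀ σ, x.2 σ ≠ 0 → G.IsClique (σ : Set V) ∧ σ.card = e) ∧
      (∀ σ, ∀ v ∈ σ, r v (x.2 σ) = x.2 σ) ∧ ∀ κ, ∑ v ∈ κᶜ, x.2 (insert v κ) = φ x.1 κ := Iff.rfl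

/-- The cocycle `γ` of degree `d` is the coboundary of `σ` on the cube complex of `Q`, `π : Q → P` -/
def Exa {G : SimpleGraph V} {P Q : Type} [Group P] [Group Q] (D' : PG G Q) (π : Q →* P) (d : ℕ)
    {R : Type} [AddCommMonoid R] (γ : Finset V → P → R) (σ : Finset V → Q → R) : Prop :=
  ∀ A : Finset V, G.IsClique (A : Set V) → A.card = d → ∀ q, (∀ v ∈ A, D'.b q v = 0) →
    ∑ v ∈ A, (σ (A.erase v) q + σ (A.erase v) (q * D'.g v)) = γ A (π q)

/-- The cocycle with coefficients: `∑ k, c k * γ k` -/
def comb {K : Type} [Field K] {P J : Type} [Fintype J] (c : J → K)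
    (γ : J → Finset V → P → ZMod 2) (H : Finset V) (p : P) : K :=
  ∑ k, c k * cst K (γ k H p)

end Pool.Agent.S6
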