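import Pool.Agent.S6.Defs
import Pool.Agent.S6.Cap

/-!
# Project S6: the two forms of the cap product agree
-/

set_option autoImplicit false
set_option linter.unusedSectionVars false

open Finset

namespace Pool.Agent.S6

open Pool.Agent.H77.SW Pool.Agent.H19.SR

variable {V : Type} [DecidableEq V] [Fintype V] {P : Type} [Group P] {K : Type} [Field K]

private theorem bit_ne {a : ZMod 2} : a ≠ 0 ↔ a = 1 := by
  have h : ∀ a : ZMod 2, a ≠ 0 ↔ a = 1 := by decide
  exact h a

theorem capE_eq {G : SimpleGraph V} (D : PG G P) (d : ℕ) (θ : Finset V → P → K)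
    (z : Finset V → (Finset V × P → K)) : capE D d θ z = cap D d θ z := by
  funext B x
  rw [capE_apply]
  unfold cap bs
  simp only [bit_ne]
  rw [← sum_filter_add_sum_filter_not (Bᶜ.powersetCard d) (fun H => ∀ v ∈ H, D.b x.2 v = 1)]
  have h1 : ∑ H ∈ (Bᶜ.powersetCard d).filter (fun H => ¬ ∀ v ∈ H, D.b x.2 v = 1),
      (if ∀ v ∈ H, D.b x.2 v = 1 then
        θ H (x.2 * gp D.g ((B ∪ H).filter fun v => D.b x.2 v = 1)) else 0) * z (B ∪ H) x = 0 := by
    refine sum_eq_zero fun H hH => ?_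
    rw [if_neg (mem_filter.1 hH).2, zero_mul]
  rw [h1, add_zero]
  refine sum_congr ?_ fun H hH => ?_
  · ext H
    rw [mem_filter, mem_filter, mem_powersetCard]
    constructor
    · rintro ⟨⟨h2, h3⟩, h4⟩
      refine ⟨mem_univ _, h3, ?_, h4⟩
      rw [disjoint_comm, disjoint_left]
      exact fun v hv hvB => (mem_compl.1 (h2 hv)) hvB
    · rintro ⟨-, h3, h2, h4⟩
      refine ⟨⟨fun v hv => mem_compl.2 fun hvB => disjoint_left.1 h2 hvB hv, h3⟩, h4⟩
  · rw [if_pos (mem_filter.1 hH).2.2.2]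

theorem zt_eq {G : SimpleGraph V} (D : PG G P) (i k d : ℕ) (s : Finset V) (t : V → P → K)
    (θ : Finset V → P → K) :
    Zt K D i k d s t θ = ZC K G i k (rE D s t) (capE D d θ) := by
  ext x
  rw [mem_Zt, mem_ZC, capE_eq]

end Pool.Agent.S6
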