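import Pool.Agent.S6.Cap
import Pool.Agent.H19.SR.Frm

/-!
# Project S6, module S2b: the boundary of the cap product
-/

set_option autoImplicit false
set_option linter.unusedSectionVars false

open Finset

namespace Pool.Agent.S6

open Pool.Agent.H77.SW Pool.Agent.H19.SR

variable {V : Type} [DecidableEq V] [Fintype V] {K : Type} [Field K] [CharP K 2]

/-- a homomorphism maps the products `gp` to the products `gp` -/
theorem map_gp {P Q : Type} [Group P] [Group Q] (π : Q →* P) {g : V → P} {g' : V → Q}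
    (h : ∀ v, π (g' v) = g v) (C : Finset V) : π (gp g' C) = gp g C := by
  unfold gp
  rw [map_list_prod, List.map_map]
  congr 2
  funext v
  exact h v

/-- the factors for the pull back of `θ` -/
theorem cs_map {P Q : Type} [Group P] [Group Q] (π : Q →* P) {g : V → P} {g' : V → Q}
    {b : P → V → ZMod 2} {b' : Q → V → ZMod 2} (h : ∀ v, π (g' v) = g v)
    (hb : ∀ q v, b' q v = b (π q) v) (θ : Finset V → P → K) (B H : Finset V) (q : Q) :
    cs g' b' (fun A q => θ A (π q)) B H q = cs g b θ B H (π q) := by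
  unfold cs
  simp only [hb, map_mul, map_gp π h]

private theorem bits_list {G : SimpleGraph V} {P : Type} [Group P] (D : PG G P) (v : V) :
    ∀ L : List V, L.Nodup → D.b ((L.map D.g).prod) v = if v ∈ L then 1 else 0
  | [], _ => by
    have h := D.b_mul 1 1 v
    rw [mul_one] at h
    have h1 : D.b 1 v = 0 := by
      have h2 : D.b 1 v + 0 = D.b 1 v + D.b 1 v := by rw [add_zero]; exact h
      exact (add_left_cancel h2).symm
    simpa using h1
  | u :: L, hL => by
    have hu : u ∉ L := (List.nodup_cons.1 hL).1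
    rw [List.map_cons, List.prod_cons, D.b_mul, D.b_g, bits_list D v L (List.nodup_cons.1 hL).2]
    by_cases huv : u = v
    · subst huv
      rw [if_pos rfl, if_neg hu, add_zero, if_pos List.mem_cons_self]
    · rw [if_neg huv, zero_add]
      by_cases hv : v ∈ L
      · rw [if_pos hv, if_pos (List.mem_cons_of_mem _ hv)]
      · rw [if_neg hv, if_neg]
        intro h
        rcases List.mem_cons.1 h with h | h
        · exact huv h.symm
        · exact hv h

private theorem bit_gp {G : SimpleGraph V} {P : Type} [Group P] (D : PG G P) (C : Finset V) (v : V) :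
    D.b (gp D.g C) v = if v ∈ C then 1 else 0 := by
  unfold gp
  rw [bits_list D v _ ((Finset.nodup_toList _).filter _)]
  by_cases hv : v ∈ C
  · rw [if_pos hv, if_pos]
    rw [List.mem_filter]
    exact ⟨Finset.mem_toList.2 (mem_univ v), by simpa using hv⟩
  · rw [if_neg hv, if_neg]
    intro h
    exact hv (by simpa using (List.mem_filter.1 h).2)

private theorem z2 {a : ZMod 2} (h : a ≠ 1) : a = 0 := by
  revert h
  revert a
  decide

/-- the letters in `B` are zero at the product with `gp` of the letters which are one -/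
theorem bits_gp {G : SimpleGraph V} {P : Type} [Group P] (D : PG G P) (C : Finset V) (p : P) :
    ∀ v ∈ C, D.b (p * gp D.g (C.filter fun v => D.b p v = 1)) v = 0 := by
  intro v hv
  rw [D.b_mul, bit_gp]
  by_cases h : D.b p v = 1
  · rw [if_pos (mem_filter.2 ⟨hv, h⟩), h]
    decide
  · have h2 : v ∉ C.filter fun v => D.b p v = 1 := fun h1 => h (mem_filter.1 h1).2
    rw [if_neg h2, z2 h, add_zero]

private theorem gp_comm' {G : SimpleGraph V} {P : Type} [Group P] (D : PG G P) {C : Finset V} {v : V}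
    (hC : G.IsClique ((insert v C : Finset V) : Set V)) :
    gp D.g C * D.g v = D.g v * gp D.g C := by
  have h3 : Commute (D.g v) (gp D.g C) := by
    refine Commute.list_prod_right _ _ fun y hy => ?_
    obtain ⟨u, hu, rfl⟩ := List.mem_map.1 hy
    have hu' : u ∈ C := by simpa using (List.mem_filter.1 hu).2
    by_cases hux : v = u
    · rw [hux]
    · refine D.comm v u (hC ?_ ?_ hux)
      · simp
      · simp [hu']
  exact h3.eq.symm

private theorem clq_mono {G : SimpleGraph V} {Q B : Finset V} (hQ : G.IsClique (Q : Set V))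
    (h : B ⊆ Q) : G.IsClique (B : Set V) :=
  Set.Pairwise.mono (Finset.coe_subset.2 h) hQ

private theorem gp_erase {G : SimpleGraph V} {P : Type} [Group P] (D : PG G P) {C : Finset V} {v : V}
    (hv : v ∈ C) (hC : G.IsClique (C : Set V)) : gp D.g C = gp D.g (C.erase v) * D.g v := by
  rw [← gp_insert D (notMem_erase v C) (by rwa [insert_erase hv]), insert_erase hv]

/-- The factor is invariant under the letters in `B`. -/
theorem cs_inv {G : SimpleGraph V} {P : Type} [Group P] (D : PG G P) (θ : Finset V → P → K)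
    {B H : Finset V} (hBH : G.IsClique ((B ∪ H : Finset V) : Set V)) {v : V} (hv : v ∈ B)
    (hvH : v ∉ H) (p : P) : cs D.g D.b θ B H (p * D.g v) = cs D.g D.b θ B H p := by
  have hb : ∀ u, u ≠ v → D.b (p * D.g v) u = D.b p u := fun u hu => by
    rw [D.b_mul, D.b_g, if_neg (fun h => hu h.symm), add_zero]
  have hbv : D.b (p * D.g v) v = D.b p v + 1 := by rw [D.b_mul, D.b_g, if_pos rfl]
  have h1 : (∀ u ∈ H, D.b (p * D.g v) u = 1) ↔ ∀ u ∈ H, D.b p u = 1 := by
    refine forall₂_congr fun u hu => ?_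
    rw [hb u fun h => hvH (h ▸ hu)]
  unfold cs
  simp only [h1]
  refine if_congr Iff.rfl ?_ rfl
  congr 1
  set S := (B ∪ H).filter fun u => D.b p u = 1 with hS
  by_cases hv1 : D.b p v = 1
  · have h2 : ((B ∪ H).filter fun u => D.b (p * D.g v) u = 1) = S.erase v := by
      ext u
      rw [mem_filter, mem_erase, hS, mem_filter]
      by_cases hu : u = v
      · subst hu
        rw [hbv, hv1]
        constructor
        · rintro ⟨_, h⟩
          exact absurd h (by decide)
        · rintro ⟨h, _⟩
          exact absurd rfl h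
      · rw [hb u hu]
        tauto
    have h3 : v ∈ S := mem_filter.2 ⟨mem_union_left _ hv, hv1⟩
    have hSc : G.IsClique (S : Set V) := clq_mono hBH (filter_subset _ _)
    rw [h2, gp_erase D h3 hSc, mul_assoc, ← gp_comm' D (by rwa [insert_erase h3])]
  · have h2 : ((B ∪ H).filter fun u => D.b (p * D.g v) u = 1) = insert v S := by
      ext u
      rw [mem_filter, mem_insert, hS, mem_filter]
      by_cases hu : u = v
      · subst hu
        rw [hbv, z2 hv1]
        constructor
        · intro _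
          exact Or.inl rfl
        · intro _
          exact ⟨mem_union_left _ hv, by decide⟩
      · rw [hb u hu]
        constructor
        · intro h
          exact Or.inr h
        · rintro (h | h)
          · exact absurd h hu
          · exact h
    have h3 : v ∉ S := fun h => hv1 (mem_filter.1 h).2
    have hSc : G.IsClique ((insert v S : Finset V) : Set V) :=
      clq_mono hBH (insert_subset (mem_union_left _ hv) (filter_subset _ _))
    rw [h2, gp_insert D h3 hSc, gp_comm' D hSc, mul_assoc, ← mul_assoc (D.g v) (D.g v), D.sq, one_mul]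

private theorem reidx (B : Finset V) {d : ℕ} (hd : 1 ≤ d) (f : V → Finset V → K) :
    ∑ v ∈ Bᶜ, ∑ H ∈ (insert v B)ᶜ.powersetCard (d - 1), f v H =
      ∑ F ∈ Bᶜ.powersetCard d, ∑ v ∈ F, f v (F.erase v) := by
  rw [sum_sigma', sum_sigma']
  refine sum_bij' (fun x _ => ⟨insert x.1 x.2, x.1⟩) (fun x _ => ⟨x.2, x.1.erase x.2⟩) ?_ ?_ ?_ ?_ ?_
  · rintro ⟨v, H⟩ hx
    obtain ⟨h1, h2⟩ := mem_sigma.1 hx
    simp only at h1 h2
    rw [mem_powersetCard] at h2
    have hvB : v ∉ B := mem_compl.1 h1
    have hvH : v ∉ H := fun h => mem_compl.1 (h2.1 h) (mem_insert_self _ _)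
    rw [mem_sigma, mem_powersetCard]
    refine ⟨⟨insert_subset h1 fun u hu => ?_, ?_⟩, mem_insert_self _ _⟩
    · exact mem_compl.2 fun h => mem_compl.1 (h2.1 hu) (mem_insert_of_mem h)
    · simp only
      rw [card_insert_of_notMem hvH, h2.2]
      omega
  · rintro ⟨F, v⟩ hx
    obtain ⟨h1, h2⟩ := mem_sigma.1 hx
    simp only at h1 h2
    rw [mem_powersetCard] at h1
    rw [mem_sigma, mem_powersetCard]
    refine ⟨h1.1 h2, fun u hu => ?_, ?_⟩
    · rw [mem_compl, mem_insert]
      rintro (h | h)
      · exact (mem_erase.1 hu).1 h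
      · exact mem_compl.1 (h1.1 (mem_of_mem_erase hu)) h
    · simp only
      rw [card_erase_of_mem h2, h1.2]
  · rintro ⟨v, H⟩ hx
    obtain ⟨h1, h2⟩ := mem_sigma.1 hx
    simp only at h1 h2
    rw [mem_powersetCard] at h2
    have hvH : v ∉ H := fun h => mem_compl.1 (h2.1 h) (mem_insert_self _ _)
    simp only
    rw [erase_insert hvH]
  · rintro ⟨F, v⟩ hx
    obtain ⟨h1, h2⟩ := mem_sigma.1 hx
    simp only at h1 h2 ⊢
    rw [insert_erase h2]
  · rintro ⟨v, H⟩ hx
    obtain ⟨h1, h2⟩ := mem_sigma.1 hx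
    simp only at h1 h2
    rw [mem_powersetCard] at h2
    have hvH : v ∉ H := fun h => mem_compl.1 (h2.1 h) (mem_insert_self _ _)
    simp only
    rw [erase_insert hvH]

private theorem reidx' (B : Finset V) {d : ℕ} (hd : 1 ≤ d) (f : V → Finset V → K) :
    ∑ H ∈ Bᶜ.powersetCard (d - 1), ∑ v ∈ (B ∪ H)ᶜ, f v H =
      ∑ F ∈ Bᶜ.powersetCard d, ∑ v ∈ F, f v (F.erase v) := by
  rw [sum_sigma', sum_sigma']
  refine sum_bij' (fun x _ => ⟨insert x.2 x.1, x.2⟩) (fun x _ => ⟨x.1.erase x.2, x.2⟩) ?_ ?_ ?_ ?_ ?_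
  · rintro ⟨H, v⟩ hx
    obtain ⟨h1, h2⟩ := mem_sigma.1 hx
    simp only at h1 h2
    rw [mem_powersetCard] at h1
    have hvB : v ∉ B := fun h => mem_compl.1 h2 (mem_union_left _ h)
    have hvH : v ∉ H := fun h => mem_compl.1 h2 (mem_union_right _ h)
    rw [mem_sigma, mem_powersetCard]
    refine ⟨⟨insert_subset (mem_compl.2 hvB) h1.1, ?_⟩, mem_insert_self _ _⟩
    simp only
    rw [card_insert_of_notMem hvH, h1.2]
    omega
  · rintro ⟨F, v⟩ hx
    obtain ⟨h1, h2⟩ := mem_sigma.1 hx
    simp only at h1 h2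
    rw [mem_powersetCard] at h1
    rw [mem_sigma, mem_powersetCard]
    refine ⟨⟨(erase_subset _ _).trans h1.1, ?_⟩, ?_⟩
    · simp only
      rw [card_erase_of_mem h2, h1.2]
    · rw [mem_compl, mem_union]
      rintro (h | h)
      · exact mem_compl.1 (h1.1 h2) h
      · exact notMem_erase _ _ h
  · rintro ⟨H, v⟩ hx
    obtain ⟨h1, h2⟩ := mem_sigma.1 hx
    simp only at h1 h2
    have hvH : v ∉ H := fun h => mem_compl.1 h2 (mem_union_right _ h)
    simp only
    rw [erase_insert hvH]
  · rintro ⟨F, v⟩ hx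
    obtain ⟨h1, h2⟩ := mem_sigma.1 hx
    simp only at h1 h2 ⊢
    rw [insert_erase h2]
  · rintro ⟨H, v⟩ hx
    obtain ⟨h1, h2⟩ := mem_sigma.1 hx
    simp only at h1 h2
    have hvH : v ∉ H := fun h => mem_compl.1 h2 (mem_union_right _ h)
    simp only
    rw [erase_insert hvH]

/-- **The boundary of the cap product.** `θ'` is the coboundary of `σ` (`d` letters), `x` a function on the cliques.
Both sides are sums over the `F ⊆ Bᶜ` with `d` elements; for `F = insert v H` the coefficient of `x (B ∪ F)` on the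
right side is `∑ v ∈ F, (cs σ (insert v B) (F.erase v) q + cs σ B (F.erase v) q)`. If all letters in `F` are one at
`q`, the terms are `σ (F.erase v) q'` and `σ (F.erase v) (q' * g v)`, `q' = q * gp S`, `S` the letters in `B ∪ F` which
are one at `q`, and the sum is `θ' F q'`. If `v₀ ∈ F` is zero at `q` then only the terms of `v₀` can be different from
zero and they are equal, because the letters in `B ∪ F` and in `B ∪ F.erase v₀` which are one at `q` are the same. -/
theorem cs_bd {G : SimpleGraph V} {Q : Type} [Group Q] (D' : PG G Q) {d : ℕ} (hd : 1 ≤ d)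
    {θ' σ : Finset V → Q → K}
    (hσ : ∀ A : Finset V, G.IsClique (A : Set V) → A.card = d → ∀ q, (∀ v ∈ A, D'.b q v = 0) →
      ∑ v ∈ A, (σ (A.erase v) q + σ (A.erase v) (q * D'.g v)) = θ' A q)
    (B : Finset V) (q : Q) (x : Finset V → K) (hx : ∀ A, x A ≠ 0 → G.IsClique (A : Set V)) :
    ∑ H ∈ Bᶜ.powersetCard d, cs D'.g D'.b θ' B H q * x (B ∪ H) =
      ∑ v ∈ Bᶜ, ∑ H ∈ (insert v B)ᶜ.powersetCard (d - 1),
        cs D'.g D'.b σ (insert v B) H q * x (insert v B ∪ H) +
      ∑ H ∈ Bᶜ.powersetCard (d - 1), cs D'.g D'.b σ B H q * ∑ v ∈ (B ∪ H)ᶜ, x (insert v (B ∪ H)) := by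
  simp only [mul_sum]
  rw [reidx B hd fun v H => cs D'.g D'.b σ (insert v B) H q * x (insert v B ∪ H),
    reidx' B hd fun v H => cs D'.g D'.b σ B H q * x (insert v (B ∪ H)), ← sum_add_distrib]
  refine sum_congr rfl fun F hF => ?_
  rw [mem_powersetCard] at hF
  obtain ⟨hFB, hFd⟩ := hF
  have hvB : ∀ v ∈ F, v ∉ B := fun v hv => mem_compl.1 (hFB hv)
  have e1 : ∀ v ∈ F, insert v B ∪ F.erase v = B ∪ F := by
    intro v hv
    rw [insert_union, ← union_insert, insert_erase hv]
  have e2 : ∀ v ∈ F, insert v (B ∪ F.erase v) = B ∪ F := by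
    intro v hv
    rw [← union_insert, insert_erase hv]
  rw [← sum_add_distrib]
  have h0 : ∑ v ∈ F, (cs D'.g D'.b σ (insert v B) (F.erase v) q * x (insert v B ∪ F.erase v) +
      cs D'.g D'.b σ B (F.erase v) q * x (insert v (B ∪ F.erase v))) =
      (∑ v ∈ F, (cs D'.g D'.b σ (insert v B) (F.erase v) q +
        cs D'.g D'.b σ B (F.erase v) q)) * x (B ∪ F) := by
    rw [sum_mul]
    refine sum_congr rfl fun v hv => ?_
    rw [e1 v hv, e2 v hv, add_mul]
  rw [h0]
  by_cases hx0 : x (B ∪ F) = 0
  · rw [hx0, mul_zero, mul_zero]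
  have hcl : G.IsClique ((B ∪ F : Finset V) : Set V) := hx _ hx0
  congr 1
  set S := (B ∪ F).filter fun u => D'.b q u = 1 with hS
  by_cases hone : ∀ v ∈ F, D'.b q v = 1
  · have h1 : cs D'.g D'.b θ' B F q = θ' F (q * gp D'.g S) := by
      unfold cs
      rw [if_pos hone]
    rw [h1, ← hσ F (clq_mono hcl subset_union_right) hFd (q * gp D'.g S) fun v hv =>
      bits_gp D' (B ∪ F) q v (mem_union_right _ hv)]
    refine sum_congr rfl fun v hv => ?_
    have h2 : cs D'.g D'.b σ (insert v B) (F.erase v) q = σ (F.erase v) (q * gp D'.g S) := by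
      unfold cs
      rw [if_pos fun u hu => hone u (mem_of_mem_erase hu), e1 v hv]
    have h3 : cs D'.g D'.b σ B (F.erase v) q = σ (F.erase v) (q * gp D'.g S * D'.g v) := by
      have hvS : v ∈ S := mem_filter.2 ⟨mem_union_right _ hv, hone v hv⟩
      have h4 : ((B ∪ F.erase v).filter fun u => D'.b q u = 1) = S.erase v := by
        ext u
        rw [mem_filter, mem_erase, hS, mem_filter, mem_union, mem_union, mem_erase]
        constructor
        · rintro ⟨h | h, h'⟩
          · exact ⟨fun h5 => hvB v hv (h5 ▸ h), Or.inl h, h'⟩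
          · exact ⟨h.1, Or.inr h.2, h'⟩
        · rintro ⟨h, h' | h', h''⟩
          · exact ⟨Or.inl h', h''⟩
          · exact ⟨Or.inr ⟨h, h'⟩, h''⟩
      unfold cs
      rw [if_pos fun u hu => hone u (mem_of_mem_erase hu), h4,
        gp_erase D' hvS (clq_mono hcl (filter_subset _ _)), mul_assoc, mul_assoc, D'.sq, mul_one]
    rw [h2, h3]
  · push Not at hone
    obtain ⟨v₀, hv₀, hz⟩ := hone
    have h1 : cs D'.g D'.b θ' B F q = 0 := by
      unfold cs
      rw [if_neg fun h => hz (h v₀ hv₀)]
    rw [h1, sum_eq_single v₀]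
    · have h4 : ((B ∪ F.erase v₀).filter fun u => D'.b q u = 1) = S := by
        ext u
        rw [mem_filter, hS, mem_filter, mem_union, mem_union, mem_erase]
        constructor
        · rintro ⟨h | h, h'⟩
          · exact ⟨Or.inl h, h'⟩
          · exact ⟨Or.inr h.2, h'⟩
        · rintro ⟨h' | h', h''⟩
          · exact ⟨Or.inl h', h''⟩
          · exact ⟨Or.inr ⟨fun h5 => hz (h5 ▸ h''), h'⟩, h''⟩
      have h5 : cs D'.g D'.b σ (insert v₀ B) (F.erase v₀) q = cs D'.g D'.b σ B (F.erase v₀) q := by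
        unfold cs
        rw [e1 v₀ hv₀, h4]
      rw [h5, CharTwo.add_self_eq_zero]
    · intro v hv hvv
      have h5 : v₀ ∈ F.erase v := mem_erase.2 ⟨hvv.symm, hv₀⟩
      unfold cs
      rw [if_neg fun h => hz (h v₀ h5), if_neg fun h => hz (h v₀ h5), add_zero]
    · exact fun h => absurd hv₀ h

end Pool.Agent.S6
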