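import Pool.Agent.H19.SR.KeyP

/-!
# Project S6: Singer's conjecture for right-angled Coxeter groups with one wall less: definitions

Notes 4217, 4221. `cap` is the cubical cap product of a plain cochain `θ` over `K` and of a chain with coefficients
in the extension module `rE D s t`; `Zt` the cycles of its cone; `Cv` the coverings of the finite quotients.
-/

set_option autoImplicit false
set_option linter.unusedSectionVars false

open Finset

namespace Pool.Agent.S6

open Pool.Agent.H77.SW Pool.Agent.H19.SR

variable {V : Type} [DecidableEq V] [Fintype V]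

section Cap

variable {P : Type} [Group P]

/-- the vertex of the cell of the type `A` through `p` whose bits vanish on `A` -/
noncomputable def bs {G : SimpleGraph V} (D : PG G P) (A : Finset V) (p : P) : P :=
  p * gp D.g (A.filter fun v => D.b p v ≠ 0)

/-- the coboundary of a plain cochain (only the values at the vertices `p` whose bits vanish on `A` matter) -/
def dch {G : SimpleGraph V} (D : PG G P) {R : Type} [AddCommMonoid R] (η : Finset V → P → R)
    (A : Finset V) (p : P) : R :=
  ∑ v ∈ A, (η (A.erase v) p + η (A.erase v) (p * D.g v))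

/-- the cap product of the plain cochain `θ` of degree `d` and of a chain `z`: the cell of the type `B` is the back
face of the cells of the types `B ∪ C`, `C` with `d` elements, at the vertices whose bits are `1` on `C`, `θ` is
evaluated at the front face -/
noncomputable def cap {K : Type} [Field K] {G : SimpleGraph V} (D : PG G P) (d : ℕ)
    (θ : Finset V → P → K) (z : Finset V → (Finset V × P → K)) (B : Finset V) :
    Finset V × P → K := fun x =>
  ∑ C ∈ (univ : Finset (Finset V)).filter fun C => C.card = d ∧ Disjoint B C ∧ ∀ v ∈ C, D.b x.2 v ≠ 0,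
    θ C (bs D (B ∪ C) x.2) * z (B ∪ C) x

/-- the pairs `(z, y)`, `z` a cycle of degree `i`, `y` a chain of degree `k` with coefficients in `rE D s t`, such
that the boundary of `y` is the cap product of `θ` (degree `d`) and `z` -/
def Zt (K : Type) [Field K] {G : SimpleGraph V} (D : PG G P) (i k d : ℕ) (s : Finset V)
    (t : V → P → K) (θ : Finset V → P → K) :
    Submodule K ((Finset V → (Finset V × P → K)) × (Finset V → (Finset V × P → K))) where
  carrier := {x | x.1 ∈ Zs K G i (rE D s t) ∧
    (∀ σ, x.2 σ ≠ 0 → G.IsClique (σ : Set V) ∧ σ.card = k) ∧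
    (∀ σ, ∀ v ∈ σ, rE D s t v (x.2 σ) = x.2 σ) ∧
    ∀ κ, ∑ v ∈ κᶜ, x.2 (insert v κ) = cap D d θ x.1 κ}
  zero_mem' := by
    refine ⟨Submodule.zero_mem _, fun σ h => absurd rfl h, fun σ v _ => ?_, fun κ => ?_⟩
    · simp
    · funext x
      simp [cap]
  add_mem' := by
    rintro x y ⟨h1, h2, h3, h4⟩ ⟨h5, h6, h7, h8⟩
    refine ⟨Submodule.add_mem _ h1 h5, fun σ h => ?_, fun σ v hv => ?_, fun κ => ?_⟩
    · by_cases hz : x.2 σ = 0
      · by_cases hw : y.2 σ = 0
        · exact absurd (by simp [hz, hw]) h
        · exact h6 σ hw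
      · exact h2 σ hz
    · rw [Prod.snd_add, Pi.add_apply, map_add, h3 σ v hv, h7 σ v hv]
    · simp only [Prod.snd_add, Prod.fst_add, Pi.add_apply, sum_add_distrib, h4 κ, h8 κ]
      funext u
      rw [Pi.add_apply]
      unfold cap
      rw [← sum_add_distrib]
      refine sum_congr rfl fun C _ => ?_
      rw [Pi.add_apply, Pi.add_apply, mul_add]
  smul_mem' := by
    rintro c x ⟨h1, h2, h3, h4⟩
    refine ⟨Submodule.smul_mem _ c h1, fun σ h => h2 σ fun h0 => h ?_, fun σ v hv => ?_,
      fun κ => ?_⟩
    · rw [Prod.smul_snd, Pi.smul_apply, h0, smul_zero]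
    · rw [Prod.smul_snd, Pi.smul_apply, map_smul, h3 σ v hv]
    · simp only [Prod.smul_snd, Prod.smul_fst, Pi.smul_apply, ← smul_sum, h4 κ]
      funext u
      rw [Pi.smul_apply]
      unfold cap
      rw [smul_sum]
      refine sum_congr rfl fun C _ => ?_
      rw [Pi.smul_apply, Pi.smul_apply, smul_eq_mul, smul_eq_mul]
      ring

theorem mem_Zt {K : Type} [Field K] {G : SimpleGraph V} {D : PG G P} {i k d : ℕ} {s : Finset V}
    {t : V → P → K} {θ : Finset V → P → K}
    {x : (Finset V → (Finset V × P → K)) × (Finset V → (Finset V × P → K))} :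
    x ∈ Zt K D i k d s t θ ↔ x.1 ∈ Zs K G i (rE D s t) ∧
      (∀ σ, x.2 σ ≠ 0 → G.IsClique (σ : Set V) ∧ σ.card = k) ∧
      (∀ σ, ∀ v ∈ σ, rE D s t v (x.2 σ) = x.2 σ) ∧
      ∀ κ, ∑ v ∈ κᶜ, x.2 (insert v κ) = cap D d θ x.1 κ := Iff.rfl

end Cap

/-- a covering of the finite quotient `D` -/
structure Cv {G : SimpleGraph V} {P : Type} [Group P] (D : PG G P) {Q : Type} [Group Q]
    (D' : PG G Q) where
  /-- the homomorphism -/
  f : Q →* P
  surj : Function.Surjective f
  g : ∀ v, f (D'.g v) = D.g v
  b : ∀ q v, D'.b q v = D.b (f q) v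

/-- **The relation for the walls of the clique `s` and one class of degree `i - |s|`, in degree `i`** (`|s| = n - i`
for actions on manifolds of dimension `n`): for every finite quotient `D`, all coefficients `t` of the walls, all
linear combinations `θ` over `K` of cocycles of degree `i - |s|` over `ZMod 2` and all cycles `z` with coefficients in
`rE D s t` whose cap product with `θ` is the boundary of a chain `y`, the sum of `θ ∏ t` and of the square of the
component `∅` of `z` vanishes. -/
def KeyRel6 (G : SimpleGraph V) (i : ℕ) (s : Finset V) : Prop :=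
  ∀ (K : Type) [Field K] [CharP K 2] (P : Type) [Group P] [Fintype P] (D : PG G P),
    Subgroup.closure (Set.range D.g) = ⊤ → ∀ t : V → P → K, StarInv D t →
    ∀ (J : Type) [Fintype J] (c : J → K) (γ : J → Finset V → P → ZMod 2),
    (∀ m, Coc D (i - s.card) (γ m)) →
    ∀ x ∈ Zt K D i (s.card + 1) (i - s.card) s t (fun A p => ∑ m, c m * cst K (γ m A p)),
      ∑ A ∈ (univ : Finset (Finset V)).filter (fun A => s ⊆ A), ∑ p ∈ bz D A,
        (∑ m, c m * cst K (γ m (A \ s) p)) * (∏ v ∈ s, t v p) * x.1 A (∅, p) ^ 2 = 0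

/-- The coefficients of the relation: for every finite quotient `D` there are coefficients `τ` of the walls and a
cocycle `θ = ∑ c m γ m` of degree `i - |s|`, such that the component `∅` of every cycle with coefficients in
`rE D s t`, `t v p = τ (ι v p)`, whose cap product with `θ` is a boundary, is in `TL K D i s` -/
def KeyAt6 (G : SimpleGraph V) (i : ℕ) (s : Finset V) : Prop :=
  ∀ (K : Type) [Field K] [CharP K 2], GenSeq K → ∀ (P : Type) [Group P] [Fintype P] (D : PG G P),
    Subgroup.closure (Set.range D.g) = ⊤ →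
    ∃ (I : Type) (_ : Fintype I) (_ : DecidableEq I) (ι : V → P → I) (τ : I → K) (J : Type)
      (_ : Fintype J) (c : J → K) (γ : J → Finset V → P → ZMod 2),
      (∀ v u, (u = v ∨ G.Adj v u) → ∀ p, ι v (p * D.g u) = ι v p) ∧
      (∀ m, Coc D (i - s.card) (γ m)) ∧
      ∀ x ∈ Zt K D i (s.card + 1) (i - s.card) s (fun v p => τ (ι v p))
        (fun A p => ∑ m, c m * cst K (γ m A p)), (fun σ p => x.1 σ (∅, p)) ∈ TL K D i s

end Pool.Agent.S6
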