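import Pool.Agent.S6.Defs

/-!
# Cocycles of positive degree die in a finite two-group above `P`
-/

set_option autoImplicit false
set_option linter.unusedSectionVars false

open Finset

namespace Pool.Agent.S6.Gd

open Pool.Agent.H77.SW Pool.Agent.H19.SR

variable {V : Type} [DecidableEq V] [Fintype V]

private theorem two_add (a : ZMod 2) : a + a = 0 := CharTwo.add_self_eq_zero a

/-! ### The extension -/

/-- the semidirect product of the functions `I → P → ZMod 2` and `P` -/
def EG (I P : Type) : Type := (I → P → ZMod 2) × P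

section EG

variable (I P : Type)

instance EG_mul [Group P] : Mul (EG I P) :=
  ⟨fun x y => (fun i p => x.1 i p + y.1 i (p * x.2), x.2 * y.2)⟩

instance EG_one [Group P] : One (EG I P) := ⟨(fun _ _ => 0, 1)⟩

instance EG_inv [Group P] : Inv (EG I P) :=
  ⟨fun x => (fun i p => - x.1 i (p * x.2⁻¹), x.2⁻¹)⟩

variable {I P}

theorem EG_ext {x y : EG I P} (h1 : ∀ i p, x.1 i p = y.1 i p) (h2 : x.2 = y.2) : x = y :=
  Prod.ext (funext fun i => funext fun p => h1 i p) h2

theorem EG_mul_fst [Group P] (x y : EG I P) (i : I) (p : P) :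
    (x * y).1 i p = x.1 i p + y.1 i (p * x.2) := rfl

theorem EG_mul_snd [Group P] (x y : EG I P) : (x * y).2 = x.2 * y.2 := rfl

theorem EG_one_fst [Group P] (i : I) (p : P) : (1 : EG I P).1 i p = 0 := rfl

theorem EG_one_snd [Group P] : (1 : EG I P).2 = 1 := rfl

variable (I P)

instance EG_group [Group P] : Group (EG I P) :=
  Group.ofLeftAxioms
    (by
      intro a b c
      refine EG_ext (fun i p => ?_) ?_
      · rw [EG_mul_fst, EG_mul_fst, EG_mul_fst, EG_mul_fst, EG_mul_snd, mul_assoc p a.2 b.2,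
          add_assoc]
      · rw [EG_mul_snd, EG_mul_snd, EG_mul_snd, EG_mul_snd, mul_assoc])
    (by
      intro a
      refine EG_ext (fun i p => ?_) ?_
      · rw [EG_mul_fst]
        change 0 + a.1 i (p * 1) = a.1 i p
        rw [mul_one, zero_add]
      · rw [EG_mul_snd]
        exact one_mul a.2)
    (by
      intro a
      refine EG_ext (fun i p => ?_) ?_
      · rw [EG_mul_fst]
        change - a.1 i (p * a.2⁻¹) + a.1 i (p * a.2⁻¹) = 0
        rw [neg_add_cancel]
      · rw [EG_mul_snd]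
        exact inv_mul_cancel a.2)

instance EG_finite [Finite I] [Finite P] : Finite (EG I P) :=
  inferInstanceAs (Finite ((I → P → ZMod 2) × P))

/-- the projection to `P` -/
def EG_snd [Group P] : EG I P →* P where
  toFun x := x.2
  map_one' := rfl
  map_mul' _ _ := rfl

variable {I P}

theorem EG_two [Group P] (h : IsPGroup 2 P) : IsPGroup 2 (EG I P) := by
  rw [isPGroup_iff_pow_pow_eq_one] at h ⊢
  intro x
  obtain ⟨k, hk⟩ := h x.2
  refine ⟨k + 1, ?_⟩
  have h1 : (x ^ 2 ^ k).2 = 1 := by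
    have := map_pow (EG_snd I P) x (2 ^ k)
    change (x ^ 2 ^ k).2 = x.2 ^ 2 ^ k at this
    rw [this, hk]
  rw [pow_succ, pow_mul, pow_two]
  refine EG_ext (fun i p => ?_) ?_
  · rw [EG_mul_fst, h1, mul_one, EG_one_fst]
    exact two_add _
  · rw [EG_mul_snd, h1, mul_one, EG_one_snd]

end EG

theorem two_prod {P Q : Type} [Group P] [Group Q] (hP : IsPGroup 2 P) (hQ : IsPGroup 2 Q) :
    IsPGroup 2 (P × Q) := by
  rw [isPGroup_iff_pow_pow_eq_one] at hP hQ ⊢
  intro x
  obtain ⟨k, hk⟩ := hP x.1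
  obtain ⟨l, hl⟩ := hQ x.2
  refine ⟨k + l, Prod.ext ?_ ?_⟩
  · rw [Prod.pow_fst, pow_add, pow_mul, hk, one_pow, Prod.fst_one]
  · rw [Prod.pow_snd, pow_add, mul_comm, pow_mul, hl, one_pow, Prod.snd_one]

/-! ### Degree one -/

section One

variable {G : SimpleGraph V} {P : Type} [Group P] (D : PG G P) (U : Finset V) (v : V)

/-- the functions which are invariant under `v` and the neighbours of `v` in `U` -/
def IW : Type := {c : P → ZMod 2 // (∀ p, c (p * D.g v) = c p) ∧
  ∀ u ∈ U, G.Adj v u → ∀ p, c (p * D.g u) = c p}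

noncomputable instance IW_finite [Fintype P] : Finite (IW D U v) :=
  inferInstanceAs (Finite {c : P → ZMod 2 // (∀ p, c (p * D.g v) = c p) ∧
    ∀ u ∈ U, G.Adj v u → ∀ p, c (p * D.g u) = c p})

/-- the marked elements -/
def g1 (u : V) : P × EG (IW D U v) P :=
  if u = v then (D.g v, (fun i p => i.1 p, D.g v))
  else if u ∈ U then (D.g u, (fun _ _ => 0, D.g u)) else (D.g u, 1)

theorem g1_v : g1 D U v v = (D.g v, (fun i p => i.1 p, D.g v)) := if_pos rfl

theorem g1_mem {u : V} (h : u ≠ v) (hu : u ∈ U) :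
    g1 D U v u = (D.g u, (fun _ _ => 0, D.g u)) := by
  unfold g1
  exact (if_neg h).trans (if_pos hu)

theorem g1_not {u : V} (h : u ≠ v) (hu : u ∉ U) : g1 D U v u = (D.g u, 1) := by
  unfold g1
  rw [if_neg h, if_neg hu]

theorem g1_fst (u : V) : (g1 D U v u).1 = D.g u := by
  unfold g1
  split_ifs with h
  · rw [h]
  · rfl
  · rfl

private theorem g1_comm_aux {u : V} (h : G.Adj v u) :
    g1 D U v v * g1 D U v u = g1 D U v u * g1 D U v v := by
  refine Prod.ext ?_ ?_
  · rw [Prod.fst_mul, Prod.fst_mul, g1_fst, g1_fst, D.comm v u h]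
  · have huv : u ≠ v := fun h' => G.loopless.irrefl v (h' ▸ h)
    rw [Prod.snd_mul, Prod.snd_mul]
    by_cases hu : u ∈ U
    · rw [g1_v, g1_mem D U v huv hu]
      refine EG_ext (fun i p => ?_) ?_
      · rw [EG_mul_fst, EG_mul_fst]
        change i.1 p + 0 = 0 + i.1 (p * D.g u)
        rw [i.2.2 u hu h, add_zero, zero_add]
      · rw [EG_mul_snd, EG_mul_snd]
        exact D.comm v u h
    · rw [g1_not D U v huv hu, mul_one, one_mul]

/-- the group in degree one -/
def D1 : PG G (P × EG (IW D U v) P) where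
  g := g1 D U v
  sq u := by
    refine Prod.ext ?_ ?_
    · rw [Prod.fst_mul, g1_fst, D.sq, Prod.fst_one]
    · rw [Prod.snd_mul, Prod.snd_one]
      by_cases h : u = v
      · subst h
        rw [g1_v]
        refine EG_ext (fun i p => ?_) ?_
        · rw [EG_mul_fst, EG_one_fst]
          change i.1 p + i.1 (p * D.g u) = 0
          rw [i.2.1]
          exact two_add _
        · rw [EG_mul_snd, EG_one_snd]
          exact D.sq u
      · by_cases hu : u ∈ U
        · rw [g1_mem D U v h hu]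
          refine EG_ext (fun i p => ?_) ?_
          · rw [EG_mul_fst, EG_one_fst]
            exact add_zero 0
          · rw [EG_mul_snd, EG_one_snd]
            exact D.sq u
        · rw [g1_not D U v h hu, mul_one]
  comm u w h := by
    by_cases hu : u = v
    · subst hu
      exact g1_comm_aux D U u h
    by_cases hw : w = v
    · subst hw
      exact (g1_comm_aux D U w h.symm).symm
    refine Prod.ext ?_ ?_
    · rw [Prod.fst_mul, Prod.fst_mul, g1_fst, g1_fst, D.comm u w h]
    · rw [Prod.snd_mul, Prod.snd_mul]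
      by_cases huU : u ∈ U
      · by_cases hwU : w ∈ U
        · rw [g1_mem D U v hu huU, g1_mem D U v hw hwU]
          refine EG_ext (fun i p => ?_) ?_
          · rw [EG_mul_fst, EG_mul_fst]
          · rw [EG_mul_snd, EG_mul_snd]
            exact D.comm u w h
        · rw [g1_not D U v hw hwU, mul_one, one_mul]
      · rw [g1_not D U v hu huU, mul_one, one_mul]
  b q u := D.b q.1 u
  b_mul p q u := D.b_mul p.1 q.1 u
  b_g u w := by
    rw [g1_fst]
    exact D.b_g u w
  two := two_prod D.two (EG_two D.two)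

/-- the left translate of an invariant function -/
def trI (c : P → ZMod 2) (h1 : ∀ p, c (p * D.g v) = c p)
    (h2 : ∀ u ∈ U, G.Adj v u → ∀ p, c (p * D.g u) = c p) (x : P) : IW D U v :=
  ⟨fun p => c (x * p), fun p => by
    change c (x * (p * D.g v)) = c (x * p)
    rw [← mul_assoc, h1], fun u hu huv p => by
    change c (x * (p * D.g u)) = c (x * p)
    rw [← mul_assoc, h2 u hu huv]⟩

theorem kill_one (c : P → ZMod 2) (h1 : ∀ p, c (p * D.g v) = c p)
    (h2 : ∀ u ∈ U, G.Adj v u → ∀ p, c (p * D.g u) = c p) :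
    ∃ η : P × EG (IW D U v) P → ZMod 2, (∀ q, η (q * (D1 D U v).g v) = η q + c q.1) ∧
      ∀ u ∈ U, u ≠ v → ∀ q, η (q * (D1 D U v).g u) = η q := by
  refine ⟨fun q => q.2.1 (trI D U v c h1 h2 (q.1 * q.2.2⁻¹)) 1, fun q => ?_, fun u hu huv q => ?_⟩
  · have e1 : (q * (D1 D U v).g v).1 = q.1 * D.g v := by
      rw [Prod.fst_mul]
      exact congrArg _ (g1_fst D U v v)
    have e2 : (q * (D1 D U v).g v).2.2 = q.2.2 * D.g v := by
      rw [Prod.snd_mul, EG_mul_snd]
      exact congrArg _ (congrArg (fun x => x.2.2) (g1_v D U v))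
    have e3 : ∀ i p, (q * (D1 D U v).g v).2.1 i p = q.2.1 i p + i.1 (p * q.2.2) := by
      intro i p
      rw [Prod.snd_mul, EG_mul_fst]
      exact congrArg (q.2.1 i p + ·)
        (congrArg (fun x : P × EG (IW D U v) P => x.2.1 i (p * q.2.2)) (g1_v D U v))
    have e4 : q.1 * D.g v * (q.2.2 * D.g v)⁻¹ = q.1 * q.2.2⁻¹ := by group
    simp only [e1, e2, e3, e4]
    congr 1
    change c (q.1 * q.2.2⁻¹ * (1 * q.2.2)) = c q.1
    congr 1
    group
  · have e1 : (q * (D1 D U v).g u).1 = q.1 * D.g u := by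
      rw [Prod.fst_mul]
      exact congrArg _ (g1_fst D U v u)
    have e2 : (q * (D1 D U v).g u).2.2 = q.2.2 * D.g u := by
      rw [Prod.snd_mul, EG_mul_snd]
      exact congrArg _ (congrArg (fun x => x.2.2) (g1_mem D U v huv hu))
    have e3 : ∀ i p, (q * (D1 D U v).g u).2.1 i p = q.2.1 i p := by
      intro i p
      rw [Prod.snd_mul, EG_mul_fst]
      refine (congrArg (q.2.1 i p + ·) (congrArg (fun x : P × EG (IW D U v) P =>
        x.2.1 i (p * q.2.2)) (g1_mem D U v huv hu))).trans ?_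
      exact add_zero _
    have e4 : q.1 * D.g u * (q.2.2 * D.g u)⁻¹ = q.1 * q.2.2⁻¹ := by group
    simp only [e1, e2, e3, e4]

end One

/-! ### The induction -/

/-- cocycles of degree `d` on the cells with letters in `U` -/
def CocU {G : SimpleGraph V} {P : Type} [Group P] (D : PG G P) (U : Finset V) (d : ℕ)
    (γ : Finset V → P → ZMod 2) : Prop :=
  ∀ A ⊆ U, G.IsClique (A : Set V) → A.card = d + 1 → ∀ p, (∀ v ∈ A, D.b p v = 0) →
    ∑ v ∈ A, (γ (A.erase v) p + γ (A.erase v) (p * D.g v)) = 0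

/-- coboundaries on the cells with letters in `U` -/
def KillU {G : SimpleGraph V} {P : Type} [Group P] (D : PG G P) (U : Finset V) (d : ℕ)
    (γ : Finset V → P → ZMod 2) : Prop :=
  ∃ η : Finset V → P → ZMod 2, ∀ A ⊆ U, G.IsClique (A : Set V) → A.card = d → ∀ p,
    (∀ v ∈ A, D.b p v = 0) → ∑ v ∈ A, (η (A.erase v) p + η (A.erase v) (p * D.g v)) = γ A p

private theorem sum_symm (F : V → V → ZMod 2) (h : ∀ u v, F u v = F v u) (A : Finset V) :
    ∑ v ∈ A, ∑ u ∈ A.erase v, F v u = 0 := by
  induction A using Finset.induction_on with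
  | empty => simp
  | insert a A ha ih =>
    rw [sum_insert ha, erase_insert ha]
    have e : ∀ v ∈ A, ∑ u ∈ (insert a A).erase v, F v u = F a v + ∑ u ∈ A.erase v, F v u := by
      intro v hv
      have hav : a ≠ v := fun h' => ha (h' ▸ hv)
      rw [erase_insert_of_ne hav, sum_insert (fun h' => ha (mem_of_mem_erase h')), h v a]
    rw [sum_congr rfl e, sum_add_distrib, ih, add_zero]
    exact two_add _

/-- the coboundary of a coboundary vanishes -/
private theorem dd_zero {G : SimpleGraph V} {P : Type} [Group P] (D : PG G P)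
    (η : Finset V → P → ZMod 2) (A : Finset V) (hA : G.IsClique (A : Set V)) (p : P) :
    ∑ v ∈ A, ((∑ u ∈ A.erase v, (η ((A.erase v).erase u) p + η ((A.erase v).erase u) (p * D.g u))) +
      ∑ u ∈ A.erase v, (η ((A.erase v).erase u) (p * D.g v) +
        η ((A.erase v).erase u) (p * D.g v * D.g u))) = 0 := by
  classical
  let F : V → V → ZMod 2 := fun v u => if G.Adj v u then
    (η ((A.erase v).erase u) p + η ((A.erase v).erase u) (p * D.g u)) +
      (η ((A.erase v).erase u) (p * D.g v) + η ((A.erase v).erase u) (p * D.g v * D.g u)) else 0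
  have hF : ∀ u v, F u v = F v u := by
    intro u v
    simp only [F]
    by_cases h : G.Adj u v
    · rw [if_pos h, if_pos h.symm, erase_right_comm, mul_assoc, mul_assoc, D.comm u v h]
      ring
    · rw [if_neg h, if_neg (fun h' => h h'.symm)]
  rw [← sum_symm F hF A]
  refine sum_congr rfl fun v hv => ?_
  rw [← sum_add_distrib]
  refine sum_congr rfl fun u hu => ?_
  have huv : u ≠ v := (mem_erase.1 hu).1
  have h : G.Adj v u := hA hv (mem_of_mem_erase hu) huv.symm
  simp only [F]
  rw [if_pos h]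

/-- the vertex of the `v`-edge with bit `0` -/
def ev {G : SimpleGraph V} {P : Type} [Group P] (D : PG G P) (v : V) (p : P) : P :=
  if D.b p v = 0 then p else p * D.g v

private theorem zmod2_ne {a : ZMod 2} (h : a ≠ 0) : a = 1 := by
  revert h a
  decide

section ev

variable {G : SimpleGraph V} {P : Type} [Group P] (D : PG G P)

theorem ev_of {v : V} {p : P} (h : D.b p v = 0) : ev D v p = p := if_pos h

theorem b_ev (v : V) (p : P) : D.b (ev D v p) v = 0 := by
  unfold ev
  split_ifs with h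
  · exact h
  · rw [D.b_mul, D.b_g, if_pos rfl, zmod2_ne h]
    rfl

theorem b_ev_ne {v u : V} (h : v ≠ u) (p : P) : D.b (ev D v p) u = D.b p u := by
  unfold ev
  split_ifs
  · rfl
  · rw [D.b_mul, D.b_g, if_neg h, add_zero]

theorem ev_self (v : V) (p : P) : ev D v (p * D.g v) = ev D v p := by
  unfold ev
  rw [D.b_mul, D.b_g, if_pos rfl]
  by_cases h : D.b p v = 0
  · rw [if_pos h, h, if_neg (by decide), mul_assoc, D.sq, mul_one]
  · rw [if_neg h, zmod2_ne h, if_pos (by decide)]

theorem ev_mul {v u : V} (h : G.Adj v u) (p : P) : ev D v (p * D.g u) = ev D v p * D.g u := by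
  unfold ev
  rw [D.b_mul, D.b_g, if_neg h.ne', add_zero]
  split_ifs
  · rfl
  · rw [mul_assoc, mul_assoc, D.comm v u h]

end ev

open Classical in
/-- one vertex: the cells which contain `v` -/
private theorem stepK {G : SimpleGraph V} {n d : ℕ} (hd : 1 ≤ d)
    (ih : ∀ (U : Finset V), U.card ≤ n → ∀ (d : ℕ), 1 ≤ d → ∀ (P : Type) [Group P] [Fintype P]
      (D : PG G P), ∃ (Q : Type) (_ : Group Q) (_ : Fintype Q) (D' : PG G Q) (φ : Q →* P),
        (∀ v, φ (D'.g v) = D.g v) ∧ (∀ q v, D'.b q v = D.b (φ q) v) ∧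
        ∀ γ : Finset V → P → ZMod 2, CocU D U d γ → KillU D' U d fun A q => γ A (φ q))
    (U : Finset V) (hU : U.card ≤ n + 1) (v : V) (hv : v ∈ U)
    (P : Type) [Group P] [Fintype P] (D : PG G P) :
    ∃ (Q : Type) (_ : Group Q) (_ : Fintype Q) (D' : PG G Q) (φ : Q →* P),
      (∀ v, φ (D'.g v) = D.g v) ∧ (∀ q v, D'.b q v = D.b (φ q) v) ∧
      ∀ c : Finset V → P → ZMod 2, (∀ B p, c B (p * D.g v) = c B p) →
        (∀ B ⊆ (U.erase v).filter (G.Adj v), G.IsClique (B : Set V) → B.card = d → ∀ p,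
          (∀ u ∈ B, D.b p u = 0) →
            ∑ u ∈ B, (c (B.erase u) p + c (B.erase u) (p * D.g u)) = 0) →
        ∃ ζ : Finset V → Q → ZMod 2, ∀ A ⊆ U, G.IsClique (A : Set V) → A.card = d → ∀ q,
          (∀ u ∈ A, D'.b q u = 0) →
            ∑ u ∈ A, (ζ (A.erase u) q + ζ (A.erase u) (q * D'.g u)) =
              if v ∈ A then c (A.erase v) (φ q) else 0 := by
  rcases Nat.lt_or_ge 1 d with hd2 | hd1
  · have hcard : ((U.erase v).filter (G.Adj v)).card ≤ n := by
      refine (card_filter_le _ _).trans ?_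
      rw [card_erase_of_mem hv]
      omega
    obtain ⟨Q, iQ, fQ, D', φ, hg, hb, hK⟩ := ih _ hcard (d - 1) (by omega) P D
    refine ⟨Q, iQ, fQ, D', φ, hg, hb, fun c _ hc => ?_⟩
    obtain ⟨ζ, hζ⟩ := hK c fun A hA h1 h2 => hc A hA h1 (by omega)
    refine ⟨fun A q => if v ∈ A then ζ (A.erase v) q else 0, fun A hA hcl hAd q hq => ?_⟩
    by_cases hvA : v ∈ A
    · rw [if_pos hvA, ← add_sum_erase A _ hvA]
      simp only [if_neg (notMem_erase v A), zero_add]
      refine Eq.trans (sum_congr rfl fun u hu => ?_) (hζ (A.erase v) ?_ ?_ ?_ q ?_)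
      · have huv : u ≠ v := (mem_erase.1 hu).1
        have hvu : v ∈ A.erase u := mem_erase.2 ⟨huv.symm, hvA⟩
        rw [if_pos hvu, if_pos hvu, erase_right_comm]
      · intro u hu
        have huv : u ≠ v := (mem_erase.1 hu).1
        have huA : u ∈ A := mem_of_mem_erase hu
        exact mem_filter.2 ⟨mem_erase.2 ⟨huv, hA huA⟩, hcl hvA huA huv.symm⟩
      · exact hcl.subset (by
          rw [coe_erase]
          exact Set.sdiff_subset)
      · rw [card_erase_of_mem hvA, hAd]
      · exact fun u hu => hq u (mem_of_mem_erase hu)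
    · rw [if_neg hvA]
      refine sum_eq_zero fun u _ => ?_
      have h : v ∉ A.erase u := fun h => hvA (mem_of_mem_erase h)
      simp only [if_neg h, add_zero]
  · obtain rfl : d = 1 := le_antisymm hd1 hd
    have : Finite (P × EG (IW D U v) P) := inferInstance
    have fQ : Fintype (P × EG (IW D U v) P) := Fintype.ofFinite _
    refine ⟨P × EG (IW D U v) P, inferInstance, fQ, D1 D U v, MonoidHom.fst _ _,
      fun u => g1_fst D U v u, fun q u => rfl, fun c hcv hc => ?_⟩
    have h2 : ∀ u ∈ U, G.Adj v u → ∀ p, c ∅ (p * D.g u) = c ∅ p := by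
      intro u hu huv p
      have key : ∀ p, D.b p u = 0 → c ∅ (p * D.g u) = c ∅ p := by
        intro p hp
        have h := hc {u} (by
          rw [singleton_subset_iff]
          exact mem_filter.2 ⟨mem_erase.2 ⟨huv.ne', hu⟩, huv⟩)
          (by rw [coe_singleton]; exact Set.pairwise_singleton _ _) (card_singleton u) p
          (fun w hw => by rw [mem_singleton.1 hw]; exact hp)
        rw [sum_singleton, erase_singleton] at h
        exact (CharTwo.add_eq_zero.1 h).symm
      by_cases hp : D.b p u = 0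
      · exact key p hp
      · have h := key (p * D.g u) (by
          rw [D.b_mul, D.b_g, if_pos rfl, zmod2_ne hp]
          rfl)
        rw [mul_assoc, D.sq, mul_one] at h
        exact h.symm
    obtain ⟨η, hη1, hη2⟩ := kill_one D U v (c ∅) (hcv ∅) h2
    refine ⟨fun _ q => η q, fun A hA hcl hAd q hq => ?_⟩
    obtain ⟨a, rfl⟩ := card_eq_one.1 hAd
    rw [sum_singleton]
    change η q + η (q * (D1 D U v).g a) = _
    by_cases hav : v = a
    · subst hav
      rw [if_pos (mem_singleton_self v), erase_singleton, hη1, ← add_assoc, two_add, zero_add]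
      rfl
    · rw [if_neg (fun h => hav (mem_singleton.1 h)), hη2 a (hA (mem_singleton_self a))
        (fun h => hav h.symm)]
      exact two_add _

open Classical in
private theorem goodU (G : SimpleGraph V) (n : ℕ) : ∀ (U : Finset V), U.card ≤ n →
    ∀ (d : ℕ), 1 ≤ d → ∀ (P : Type) [Group P] [Fintype P] (D : PG G P),
      ∃ (Q : Type) (_ : Group Q) (_ : Fintype Q) (D' : PG G Q) (φ : Q →* P),
        (∀ v, φ (D'.g v) = D.g v) ∧ (∀ q v, D'.b q v = D.b (φ q) v) ∧
        ∀ γ : Finset V → P → ZMod 2, CocU D U d γ → KillU D' U d fun A q => γ A (φ q) := by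
  induction n with
  | zero =>
    intro U hU d hd P _ fP D
    refine ⟨P, inferInstance, fP, D, MonoidHom.id P, fun _ => rfl, fun _ _ => rfl, fun γ _ =>
      ⟨fun _ _ => 0, fun A hA _ hAd => ?_⟩⟩
    have h1 := card_le_card hA
    omega
  | succ n ih =>
    intro U hU d hd P _ fP D
    rcases U.eq_empty_or_nonempty with hU0 | ⟨v, hv⟩
    · refine ⟨P, inferInstance, fP, D, MonoidHom.id P, fun _ => rfl, fun _ _ => rfl, fun γ _ =>
        ⟨fun _ _ => 0, fun A hA _ hAd => ?_⟩⟩
      have h1 := card_le_card hA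
      rw [hU0, card_empty] at h1
      omega
    obtain ⟨Q₁, iQ₁, fQ₁, D₁, φ₁, hg₁, hb₁, hK₁⟩ := ih (U.erase v) (by
      rw [card_erase_of_mem hv]
      omega) d hd P D
    obtain ⟨Q₂, iQ₂, fQ₂, D₂, φ₂, hg₂, hb₂, hK₂⟩ := stepK hd ih U hU v hv Q₁ D₁
    refine ⟨Q₂, iQ₂, fQ₂, D₂, φ₁.comp φ₂, fun u => ?_, fun q u => ?_, fun γ hγ => ?_⟩
    · rw [MonoidHom.comp_apply, hg₂, hg₁]
    · rw [hb₂, hb₁]
      rfl
    obtain ⟨η₁, hη₁⟩ := hK₁ γ fun A hA => hγ A (hA.trans (erase_subset v U))
    let η : Finset V → Q₁ → ZMod 2 := fun A q => if v ∈ A then 0 else η₁ A q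
    let δ : Finset V → Q₁ → ZMod 2 := fun A q =>
      ∑ u ∈ A, (η (A.erase u) q + η (A.erase u) (q * D₁.g u))
    -- the corrected cocycle vanishes on the cells without `v`
    have h0 : ∀ A ⊆ U.erase v, G.IsClique (A : Set V) → A.card = d → ∀ q,
        (∀ u ∈ A, D₁.b q u = 0) → γ A (φ₁ q) + δ A q = 0 := by
      intro A hA hcl hAd q hq
      have h := hη₁ A hA hcl hAd q hq
      change _ = γ A (φ₁ q) at h
      rw [← h]
      have e : δ A q = ∑ u ∈ A, (η₁ (A.erase u) q + η₁ (A.erase u) (q * D₁.g u)) := by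
        refine sum_congr rfl fun u _ => ?_
        have hvA : v ∉ A.erase u := fun h' => (mem_erase.1 (hA (mem_of_mem_erase h'))).1 rfl
        simp only [η, if_neg hvA]
      rw [e]
      exact two_add _
    -- it is a cocycle
    have hcoc : ∀ A ⊆ U, G.IsClique (A : Set V) → A.card = d + 1 → ∀ q,
        (∀ u ∈ A, D₁.b q u = 0) → ∑ u ∈ A, ((γ (A.erase u) (φ₁ q) + δ (A.erase u) q) +
          (γ (A.erase u) (φ₁ (q * D₁.g u)) + δ (A.erase u) (q * D₁.g u))) = 0 := by
      intro A hA hcl hAd q hq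
      have h1 := hγ A hA hcl hAd (φ₁ q) (fun u hu => by rw [← hb₁]; exact hq u hu)
      have h2 := dd_zero D₁ η A hcl q
      have e : ∀ u ∈ A, ((γ (A.erase u) (φ₁ q) + δ (A.erase u) q) +
          (γ (A.erase u) (φ₁ (q * D₁.g u)) + δ (A.erase u) (q * D₁.g u))) =
          (γ (A.erase u) (φ₁ q) + γ (A.erase u) (φ₁ q * D.g u)) +
          (δ (A.erase u) q + δ (A.erase u) (q * D₁.g u)) := by
        intro u _
        rw [map_mul, hg₁]
        ring
      rw [sum_congr rfl e, sum_add_distrib, h1, zero_add]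
      exact h2
    obtain ⟨ζ, hζ⟩ := hK₂ (fun B q => γ (insert v B) (φ₁ (ev D₁ v q)) + δ (insert v B) (ev D₁ v q))
      (fun B p => by rw [ev_self])
      (fun B hB hcl hBd p hp => by
        have hvB : v ∉ B := fun h' => (mem_erase.1 (mem_filter.1 (hB h')).1).1 rfl
        have hadj : ∀ u ∈ B, G.Adj v u := fun u hu => (mem_filter.1 (hB hu)).2
        have hBU : B ⊆ U.erase v := fun u hu => (mem_filter.1 (hB hu)).1
        have hA : insert v B ⊆ U := insert_subset hv (hBU.trans (erase_subset v U))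
        have hclA : G.IsClique ((insert v B : Finset V) : Set V) := by
          rw [coe_insert]
          exact hcl.insert fun u hu _ => hadj u hu
        have hpB : ∀ u ∈ B, D₁.b (ev D₁ v p) u = 0 := fun u hu => by
          rw [b_ev_ne D₁ (hadj u hu).ne]
          exact hp u hu
        have h1 := hcoc (insert v B) hA hclA (by rw [card_insert_of_notMem hvB, hBd]) (ev D₁ v p)
          (fun u hu => by
            rcases mem_insert.1 hu with rfl | hu
            · exact b_ev D₁ u p
            · exact hpB u hu)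
        rw [sum_insert hvB, erase_insert hvB, h0 B hBU hcl hBd _ hpB,
          h0 B hBU hcl hBd (ev D₁ v p * D₁.g v) (fun u hu => by
            rw [D₁.b_mul, D₁.b_g, if_neg (hadj u hu).ne, add_zero]
            exact hpB u hu), add_zero, zero_add] at h1
        refine Eq.trans (sum_congr rfl fun u hu => ?_) h1
        rw [ev_mul D₁ (hadj u hu), erase_insert_of_ne (hadj u hu).ne])
    refine ⟨fun A q => η A (φ₂ q) + ζ A q, fun A hA hcl hAd q hq => ?_⟩
    have h1 := hζ A hA hcl hAd q hq
    have hq1 : ∀ u ∈ A, D₁.b (φ₂ q) u = 0 := fun u hu => by rw [← hb₂]; exact hq u hu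
    have e : ∀ u ∈ A, (η (A.erase u) (φ₂ q) + ζ (A.erase u) q +
        (η (A.erase u) (φ₂ (q * D₂.g u)) + ζ (A.erase u) (q * D₂.g u))) =
        (η (A.erase u) (φ₂ q) + η (A.erase u) (φ₂ q * D₁.g u)) +
        (ζ (A.erase u) q + ζ (A.erase u) (q * D₂.g u)) := by
      intro u _
      rw [map_mul, hg₂]
      ring
    rw [sum_congr rfl e, sum_add_distrib, h1]
    change δ A (φ₂ q) + _ = γ A (φ₁ (φ₂ q))
    by_cases hvA : v ∈ A
    · rw [if_pos hvA, insert_erase hvA, ev_of D₁ (hq1 v hvA), add_comm, add_assoc, two_add, add_zero]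
    · have h2 := h0 A (fun u hu => mem_erase.2 ⟨fun h' => hvA (h' ▸ hu), hA hu⟩) hcl hAd (φ₂ q) hq1
      rw [if_neg hvA, add_zero]
      exact (CharTwo.add_eq_zero.1 h2).symm

/-! ### The generated subgroup -/

section Sub

variable {G : SimpleGraph V} {Q : Type} [Group Q] (D : PG G Q)

/-- the subgroup generated by the marked elements -/
def DS : PG G (Subgroup.closure (Set.range D.g)) where
  g v := ⟨D.g v, Subgroup.subset_closure ⟨v, rfl⟩⟩
  sq v := Subtype.ext (D.sq v)
  comm u v h := Subtype.ext (D.comm u v h)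
  b q v := D.b q.1 v
  b_mul p q v := D.b_mul p.1 q.1 v
  b_g u v := D.b_g u v
  two := D.two.to_subgroup _

theorem DS_top : Subgroup.closure (Set.range (DS D).g) = ⊤ := by
  have h := Subgroup.closure_closure_coe_preimage (k := Set.range D.g)
  rw [← h]
  congr 1
  ext x
  constructor
  · rintro ⟨v, rfl⟩
    exact ⟨v, rfl⟩
  · rintro ⟨v, hv⟩
    exact ⟨v, Subtype.ext hv⟩

end Sub

end Pool.Agent.S6.Gd

namespace Pool.Agent.S6

open Pool.Agent.H77.SW Pool.Agent.H19.SR Gd

variable {V : Type} [DecidableEq V] [Fintype V]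

/-- All cocycles of degree `d ≥ 1` over `P` become coboundaries over a finite two-group `Q` above `P`, which is
generated by the marked elements. -/
theorem good {G : SimpleGraph V} {P : Type} [Group P] [Fintype P] (D : PG G P)
    (hD : Subgroup.closure (Set.range D.g) = ⊤) {d : ℕ} (hd : 1 ≤ d) :
    ∃ (Q : Type) (_ : Group Q) (_ : Fintype Q) (D' : PG G Q) (F : Cv D D'),
      Subgroup.closure (Set.range D'.g) = ⊤ ∧
      ∀ γ : Finset V → P → ZMod 2, Coc D d γ → ∃ σ : Finset V → Q → ZMod 2,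
        ∀ A : Finset V, G.IsClique (A : Set V) → A.card = d → ∀ q, (∀ v ∈ A, D'.b q v = 0) →
          dch D' σ A q = γ A (F.f q) := by
  obtain ⟨Q, iQ, fQ, D', φ, hg, hb, hK⟩ := goodU G (univ : Finset V).card univ le_rfl d hd P D
  have fS : Fintype (Subgroup.closure (Set.range D'.g)) := Fintype.ofFinite _
  have hsurj : Function.Surjective (φ.comp (Subgroup.closure (Set.range D'.g)).subtype) := by
    rw [← MonoidHom.range_eq_top, eq_top_iff, ← hD, Subgroup.closure_le]
    rintro _ ⟨v, rfl⟩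
    exact ⟨(DS D').g v, hg v⟩
  refine ⟨Subgroup.closure (Set.range D'.g), inferInstance, fS, DS D',
    ⟨φ.comp (Subgroup.closure (Set.range D'.g)).subtype, hsurj, hg, fun q v => hb q.1 v⟩,
    DS_top D', fun γ hγ => ?_⟩
  obtain ⟨η, hη⟩ := hK γ fun A _ hcl hAd p hp => hγ A hcl hAd p hp
  refine ⟨fun A q => η A q.1, fun A hcl hAd q hq => ?_⟩
  exact hη A (subset_univ A) hcl hAd q.1 hq

end Pool.Agent.S6
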