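import Pool.Agent.S6.Defs

/-!
# Project S6: cocycles of degree one die on a finite quotient

`c` is a cocycle of degree one on the cells of the types in `T`, invariant under the letters of `C`, which commute with
`T`. The quotient is `P × ((P → ZMod 2) ⋊ P)`, the function with the coboundary `c` is `(p, (h, r)) ↦ h (p r⁻¹)`.
-/

set_option autoImplicit false
set_option linter.unusedSectionVars false

open Finset

namespace Pool.Agent.S6

open Pool.Agent.H77.SW Pool.Agent.H19.SR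

variable {V : Type} [DecidableEq V] [Fintype V]

/-- the semidirect product of the functions with values in the field of two elements and `P` -/
def Wr (P : Type) : Type := (P → ZMod 2) × P

instance Wr_mul (P : Type) [Group P] : Mul (Wr P) :=
  ⟨fun q q' => (fun x => q.1 x + q'.1 (x * q.2), q.2 * q'.2)⟩

instance Wr_one (P : Type) [Group P] : One (Wr P) := ⟨(fun _ => 0, 1)⟩

instance Wr_inv (P : Type) [Group P] : Inv (Wr P) :=
  ⟨fun q => (fun x => - q.1 (x * q.2⁻¹), q.2⁻¹)⟩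

theorem Wr_ext {P : Type} {q q' : Wr P} (h1 : ∀ x, q.1 x = q'.1 x) (h2 : q.2 = q'.2) : q = q' :=
  Prod.ext (funext fun x => h1 x) h2

theorem Wr_mul_fst {P : Type} [Group P] (q q' : Wr P) (x : P) :
    (q * q').1 x = q.1 x + q'.1 (x * q.2) := rfl

theorem Wr_mul_snd {P : Type} [Group P] (q q' : Wr P) : (q * q').2 = q.2 * q'.2 := rfl

theorem Wr_one_fst {P : Type} [Group P] (x : P) : (1 : Wr P).1 x = 0 := rfl

theorem Wr_one_snd {P : Type} [Group P] : (1 : Wr P).2 = 1 := rfl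

instance Wr_group (P : Type) [Group P] : Group (Wr P) :=
  Group.ofLeftAxioms
    (by
      intro a b c
      refine Wr_ext (fun x => ?_) ?_
      · rw [Wr_mul_fst, Wr_mul_fst, Wr_mul_fst, Wr_mul_fst, Wr_mul_snd, mul_assoc x a.2 b.2,
          add_assoc]
      · rw [Wr_mul_snd, Wr_mul_snd, Wr_mul_snd, Wr_mul_snd, mul_assoc])
    (by
      intro a
      refine Wr_ext (fun x => ?_) ?_
      · rw [Wr_mul_fst]
        change 0 + a.1 (x * 1) = a.1 x
        rw [mul_one, zero_add]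
      · rw [Wr_mul_snd]
        exact one_mul a.2)
    (by
      intro a
      refine Wr_ext (fun x => ?_) ?_
      · rw [Wr_mul_fst]
        change - a.1 (x * a.2⁻¹) + a.1 (x * a.2⁻¹) = 0
        rw [neg_add_cancel]
      · rw [Wr_mul_snd]
        exact inv_mul_cancel a.2)

instance Wr_finite (P : Type) [Finite P] : Finite (Wr P) :=
  inferInstanceAs (Finite ((P → ZMod 2) × P))

theorem Wr_pgroup (P : Type) [Group P] [Finite P] (h : IsPGroup 2 P) : IsPGroup 2 (Wr P) := by
  have : Fact (Nat.Prime 2) := ⟨Nat.prime_two⟩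
  obtain ⟨m, hm⟩ := IsPGroup.iff_card.1 h
  refine IsPGroup.iff_card.2 ⟨Nat.card P + m, ?_⟩
  have h1 : Nat.card (Wr P) = Nat.card (P → ZMod 2) * Nat.card P := Nat.card_prod _ _
  rw [h1, Nat.card_fun, Nat.card_zmod, hm, ← pow_add]

theorem prod_pgroup {P Q : Type} [Group P] [Finite P] [Group Q] [Finite Q] (h : IsPGroup 2 P)
    (h' : IsPGroup 2 Q) : IsPGroup 2 (P × Q) := by
  have : Fact (Nat.Prime 2) := ⟨Nat.prime_two⟩
  obtain ⟨m, hm⟩ := IsPGroup.iff_card.1 h
  obtain ⟨n, hn⟩ := IsPGroup.iff_card.1 h'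
  exact IsPGroup.iff_card.2 ⟨m + n, by rw [Nat.card_prod, hm, hn, ← pow_add]⟩

/-- **A cocycle of degree one dies on a finite quotient.** -/
theorem good_one {G : SimpleGraph V} {P : Type} [Group P] [Fintype P] (D : PG G P)
    (T C : Finset V) (hTC : ∀ u ∈ T, ∀ a ∈ C, G.Adj u a) (c : V → P → ZMod 2)
    (h1 : ∀ u ∈ T, ∀ a, a = u ∨ a ∈ C → ∀ p, c u (p * D.g a) = c u p)
    (h2 : ∀ u ∈ T, ∀ v ∈ T, G.Adj u v → ∀ p,
      c u p + c v (p * D.g u) = c v p + c u (p * D.g v)) :
    ∃ (Q : Type) (_ : Group Q) (_ : Fintype Q) (D' : PG G Q) (φ : Q →* P),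
      (∀ v, φ (D'.g v) = D.g v) ∧ (∀ q v, D'.b q v = D.b (φ q) v) ∧
      ∃ f : Q → ZMod 2, (∀ a ∈ C, ∀ q, f (q * D'.g a) = f q) ∧
        ∀ u ∈ T, ∀ q, f (q * D'.g u) = f q + c u (φ q) := by
  classical
  -- the cocycle, extended by zero
  obtain ⟨e, he⟩ : ∃ e : V → P → ZMod 2, ∀ v p, e v p = if v ∈ T then c v p else 0 :=
    ⟨fun v p => if v ∈ T then c v p else 0, fun _ _ => rfl⟩
  have hself : ∀ v p, e v (p * D.g v) = e v p := by
    intro v p
    rw [he, he]
    split_ifs with h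
    · exact h1 v h v (Or.inl rfl) p
    · rfl
  have hCT : ∀ a ∈ C, a ∉ T := fun a ha hT => (G.loopless.irrefl a) (hTC a hT a ha)
  -- the marked elements
  obtain ⟨m, hm⟩ : ∃ m : V → Wr P, ∀ v, m v = (e v, D.g v) := ⟨fun v => (e v, D.g v), fun _ => rfl⟩
  obtain ⟨γ, hγ⟩ : ∃ γ : V → Wr P, ∀ v, γ v = if v ∈ T ∪ C then m v else 1 :=
    ⟨fun v => if v ∈ T ∪ C then m v else 1, fun _ => rfl⟩
  have hsq : ∀ v, γ v * γ v = 1 := by
    intro v
    rw [hγ]
    split_ifs with h
    · rw [hm]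
      refine Wr_ext (fun x => ?_) ?_
      · rw [Wr_mul_fst]
        change e v x + e v (x * D.g v) = 0
        rw [hself, CharTwo.add_self_eq_zero]
      · rw [Wr_mul_snd]
        exact D.sq v
    · rw [mul_one]
  have hcomm : ∀ u v, G.Adj u v → γ u * γ v = γ v * γ u := by
    intro u v huv
    rw [hγ, hγ]
    by_cases hu : u ∈ T ∪ C
    · by_cases hv : v ∈ T ∪ C
      · rw [if_pos hu, if_pos hv, hm, hm]
        refine Wr_ext (fun x => ?_) ?_
        · rw [Wr_mul_fst, Wr_mul_fst]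
          change e u x + e v (x * D.g u) = e v x + e u (x * D.g v)
          rw [he, he, he, he]
          by_cases huT : u ∈ T
          · by_cases hvT : v ∈ T
            · rw [if_pos huT, if_pos hvT, if_pos hvT, if_pos huT]
              exact h2 u huT v hvT huv x
            · have hvC : v ∈ C := (mem_union.1 hv).resolve_left hvT
              rw [if_pos huT, if_neg hvT, if_neg hvT, if_pos huT, add_zero, zero_add,
                h1 u huT v (Or.inr hvC) x]
          · have huC : u ∈ C := (mem_union.1 hu).resolve_left huT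
            by_cases hvT : v ∈ T
            · rw [if_neg huT, if_pos hvT, if_pos hvT, if_neg huT, add_zero, zero_add,
                h1 v hvT u (Or.inr huC) x]
            · rw [if_neg huT, if_neg hvT, if_neg hvT, if_neg huT]
        · rw [Wr_mul_snd, Wr_mul_snd]
          exact D.comm u v huv
      · rw [if_neg hv, mul_one, one_mul]
    · rw [if_neg hu, mul_one, one_mul]
  refine ⟨P × Wr P, inferInstance, Fintype.ofFinite _,
    { g := fun v => (D.g v, γ v)
      sq := fun v => Prod.ext (D.sq v) (hsq v)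
      comm := fun u v huv => Prod.ext (D.comm u v huv) (hcomm u v huv)
      b := fun q => D.b q.1
      b_mul := fun p q v => D.b_mul p.1 q.1 v
      b_g := fun u v => D.b_g u v
      two := prod_pgroup D.two (Wr_pgroup P D.two) }, MonoidHom.fst P (Wr P), fun _ => rfl,
    fun _ _ => rfl, fun q => q.2.1 (q.1 * q.2.2⁻¹), ?_, ?_⟩
  · intro a ha q
    change (q.2 * γ a).1 (q.1 * D.g a * (q.2 * γ a).2⁻¹) = q.2.1 (q.1 * q.2.2⁻¹)
    rw [Wr_mul_fst, Wr_mul_snd, hγ, if_pos (mem_union_right _ ha), hm]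
    change q.2.1 (q.1 * D.g a * (q.2.2 * D.g a)⁻¹) +
      e a (q.1 * D.g a * (q.2.2 * D.g a)⁻¹ * q.2.2) = q.2.1 (q.1 * q.2.2⁻¹)
    rw [he, if_neg (hCT a ha), add_zero]
    congr 1
    group
  · intro u hu q
    change (q.2 * γ u).1 (q.1 * D.g u * (q.2 * γ u).2⁻¹) = q.2.1 (q.1 * q.2.2⁻¹) + c u q.1
    rw [Wr_mul_fst, Wr_mul_snd, hγ, if_pos (mem_union_left _ hu), hm]
    change q.2.1 (q.1 * D.g u * (q.2.2 * D.g u)⁻¹) +
      e u (q.1 * D.g u * (q.2.2 * D.g u)⁻¹ * q.2.2) = q.2.1 (q.1 * q.2.2⁻¹) + c u q.1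
    have h3 : q.1 * D.g u * (q.2.2 * D.g u)⁻¹ = q.1 * q.2.2⁻¹ := by group
    rw [h3, he, if_pos hu, inv_mul_cancel_right]

end Pool.Agent.S6
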