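import Pool.Agent.S6.GoodOne

/-!
# Project S6: cocycles of positive degree die on a finite quotient, invariant form
-/

set_option autoImplicit false
set_option linter.unusedSectionVars false

open Finset

namespace Pool.Agent.S6

open Pool.Agent.H77.SW Pool.Agent.H19.SR

variable {V : Type} [DecidableEq V] [Fintype V]

/-- the function `γ` is invariant under the letters of `S` -/
def InvL {G : SimpleGraph V} {P : Type} [Group P] (D : PG G P) (S : Finset V) (γ : P → ZMod 2) :
    Prop := ∀ a ∈ S, ∀ p, γ (p * D.g a) = γ p

private theorem zz (x : ZMod 2) : x + x = 0 := CharTwo.add_self_eq_zero x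

/-- a sum of a symmetric function over the pairs of different elements vanishes -/
theorem sum_pairs (A : Finset V) (F : V → V → ZMod 2) (hF : ∀ u ∈ A, ∀ w ∈ A, F u w = F w u) :
    ∑ u ∈ A, ∑ w ∈ A.erase u, F u w = 0 := by
  induction A using Finset.induction_on with
  | empty => rfl
  | insert a A ha ih =>
    rw [sum_insert ha, erase_insert ha]
    have h1 : ∀ u ∈ A, ∑ w ∈ (insert a A).erase u, F u w = F u a + ∑ w ∈ A.erase u, F u w := by
      intro u hu
      have hua : u ≠ a := fun h => ha (h ▸ hu)
      rw [erase_insert_of_ne hua.symm, sum_insert (fun h => ha (mem_of_mem_erase h))]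
    rw [sum_congr rfl h1, sum_add_distrib, ← add_assoc, ih fun u hu w hw =>
      hF u (mem_insert_of_mem hu) w (mem_insert_of_mem hw), add_zero, ← sum_add_distrib]
    refine sum_eq_zero fun u hu => ?_
    rw [hF a (mem_insert_self _ _) u (mem_insert_of_mem hu), zz]

/-- the coboundary of a coboundary vanishes -/
theorem dch_dch {G : SimpleGraph V} {P : Type} [Group P] (D : PG G P) (η : Finset V → P → ZMod 2)
    {A : Finset V} (hA : G.IsClique (A : Set V)) (p : P) :
    ∑ u ∈ A, (dch D η (A.erase u) p + dch D η (A.erase u) (p * D.g u)) = 0 := by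
  unfold dch
  have h1 : ∀ u ∈ A, (∑ v ∈ A.erase u, (η ((A.erase u).erase v) p +
      η ((A.erase u).erase v) (p * D.g v)) + ∑ v ∈ A.erase u, (η ((A.erase u).erase v)
      (p * D.g u) + η ((A.erase u).erase v) (p * D.g u * D.g v))) =
      ∑ v ∈ A.erase u, (η ((A.erase u).erase v) p + η ((A.erase u).erase v) (p * D.g v) +
        (η ((A.erase u).erase v) (p * D.g u) + η ((A.erase u).erase v) (p * D.g u * D.g v))) :=
    fun u _ => by rw [← sum_add_distrib]
  rw [sum_congr rfl h1]
  refine sum_pairs A _ fun u hu w hw => ?_
  rw [erase_right_comm]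
  by_cases huw : u = w
  · rw [huw]
  · have h2 : p * D.g u * D.g w = p * D.g w * D.g u := by
      rw [mul_assoc, mul_assoc, D.comm u w (hA hu hw huw)]
    rw [h2]
    ring

/-- the coboundary of an invariant cochain is invariant -/
theorem dch_inv {G : SimpleGraph V} {P : Type} [Group P] (D : PG G P) (η : Finset V → P → ZMod 2)
    {A : Finset V} (hA : G.IsClique (A : Set V)) {a : V}
    (ha : ∀ u ∈ A, u ≠ a → G.Adj u a) (hη : ∀ u ∈ A, u ≠ a → ∀ p,
      η (A.erase u) (p * D.g a) = η (A.erase u) p) (p : P) :
    dch D η A (p * D.g a) = dch D η A p := by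
  unfold dch
  refine sum_congr rfl fun u hu => ?_
  by_cases hua : u = a
  · subst hua
    rw [mul_assoc, D.sq, mul_one, add_comm]
  · rw [mul_assoc, ← D.comm u a (ha u hu hua), ← mul_assoc, hη u hu hua, hη u hu hua]

/-- **Cocycles of positive degree die on a finite quotient**, invariant form. -/
theorem good_inv {G : SimpleGraph V} : ∀ (N : ℕ) (T C : Finset V), T.card ≤ N →
    (∀ u ∈ T, ∀ a ∈ C, G.Adj u a) → ∀ k : ℕ, 1 ≤ k → ∀ (P : Type) [Group P] [Fintype P]
    (D : PG G P) (γ : Finset V → P → ZMod 2),
    (∀ A ⊆ T, G.IsClique (A : Set V) → InvL D (A ∪ C) (γ A)) →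
    (∀ A ⊆ T, G.IsClique (A : Set V) → A.card = k + 1 → ∀ p, dch D γ A p = 0) →
    ∃ (Q : Type) (_ : Group Q) (_ : Fintype Q) (D' : PG G Q) (φ : Q →* P),
      (∀ v, φ (D'.g v) = D.g v) ∧ (∀ q v, D'.b q v = D.b (φ q) v) ∧
      ∃ η : Finset V → Q → ZMod 2,
        (∀ B ⊆ T, G.IsClique (B : Set V) → InvL D' (B ∪ C) (η B)) ∧
        ∀ A ⊆ T, G.IsClique (A : Set V) → A.card = k → ∀ q, dch D' η A q = γ A (φ q) := by
  intro N
  induction N with
  | zero =>
    intro T C hT hTC k hk P _ _ D γ hinv hco
    have hT0 : T = ∅ := card_eq_zero.1 (Nat.le_zero.1 hT)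
    refine ⟨P, inferInstance, inferInstance, D, MonoidHom.id P, fun _ => rfl, fun _ _ => rfl,
      fun _ _ => 0, fun B _ _ a _ p => rfl, fun A hA _ hAk q => ?_⟩
    rw [hT0, subset_empty] at hA
    rw [hA, card_empty] at hAk
    omega
  | succ N ih =>
    intro T C hT hTC k hk P _ _ D γ hinv hco
    rcases Nat.lt_or_ge 1 k with hk2 | hk1
    · -- degree at least two
      rcases T.eq_empty_or_nonempty with hT0 | ⟨v, hv⟩
      · refine ⟨P, inferInstance, inferInstance, D, MonoidHom.id P, fun _ => rfl, fun _ _ => rfl,
          fun _ _ => 0, fun B _ _ a _ p => rfl, fun A hA _ hAk q => ?_⟩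
        rw [hT0, subset_empty] at hA
        rw [hA, card_empty] at hAk
        omega
      have hTv : (T.erase v).card ≤ N := by
        have := card_erase_of_mem hv
        omega
      obtain ⟨Q1, _, _, D1, φ1, hg1, hb1, η0, hη0, hd0⟩ := ih (T.erase v) C hTv
        (fun u hu => hTC u (mem_of_mem_erase hu)) k hk P D γ
        (fun A hA => hinv A (hA.trans (erase_subset _ _)))
        (fun A hA => hco A (hA.trans (erase_subset _ _)))
      -- the extension by zero
      obtain ⟨η0', hη0'⟩ : ∃ η0' : Finset V → Q1 → ZMod 2, ∀ B q,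
          η0' B q = if v ∈ B then 0 else η0 B q :=
        ⟨fun B q => if v ∈ B then 0 else η0 B q, fun _ _ => rfl⟩
      have hsub : ∀ B ⊆ T, v ∉ B → B ⊆ T.erase v := fun B hB hvB =>
        subset_erase.2 ⟨hB, hvB⟩
      have hinv0 : ∀ B ⊆ T, G.IsClique (B : Set V) → InvL D1 (B ∪ C) (η0' B) := by
        intro B hB hBc a ha q
        rw [hη0', hη0']
        split_ifs with h
        · rfl
        · exact hη0 B (hsub B hB h) hBc a ha q
      obtain ⟨γ', hγ'⟩ : ∃ γ' : Finset V → Q1 → ZMod 2, ∀ A q,
          γ' A q = γ A (φ1 q) + dch D1 η0' A q :=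
        ⟨fun A q => γ A (φ1 q) + dch D1 η0' A q, fun _ _ => rfl⟩
      have hadj : ∀ A ⊆ T, G.IsClique (A : Set V) → ∀ a ∈ A ∪ C, ∀ u ∈ A, u ≠ a → G.Adj u a := by
        intro A hA hAc a ha u hu hua
        rcases mem_union.1 ha with h | h
        · exact hAc hu h hua
        · exact hTC u (hA hu) a h
      have hcl : ∀ A : Finset V, G.IsClique (A : Set V) → ∀ B ⊆ A, G.IsClique (B : Set V) :=
        fun A hA B hB => hA.subset (by exact_mod_cast hB)
      have hinv' : ∀ A ⊆ T, G.IsClique (A : Set V) → InvL D1 (A ∪ C) (γ' A) := by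
        intro A hA hAc a ha q
        rw [hγ', hγ', map_mul, hg1, hinv A hA hAc a ha]
        congr 1
        refine dch_inv D1 η0' hAc (hadj A hA hAc a ha) (fun u hu hua p => ?_) q
        refine hinv0 (A.erase u) ((erase_subset _ _).trans hA) (hcl A hAc _ (erase_subset _ _)) a
          ?_ p
        rcases mem_union.1 ha with h | h
        · exact mem_union_left _ (mem_erase.2 ⟨fun h' => hua h'.symm, h⟩)
        · exact mem_union_right _ h
      have hco' : ∀ A ⊆ T, G.IsClique (A : Set V) → A.card = k + 1 → ∀ q,
          dch D1 γ' A q = 0 := by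
        intro A hA hAc hAk q
        have h1 := dch_dch D1 η0' hAc q
        have h2 := hco A hA hAc hAk (φ1 q)
        unfold dch at h2
        have h3 : dch D1 γ' A q = ∑ u ∈ A, (γ (A.erase u) (φ1 q) + γ (A.erase u) (φ1 q * D.g u)) +
            ∑ u ∈ A, (dch D1 η0' (A.erase u) q + dch D1 η0' (A.erase u) (q * D1.g u)) := by
          rw [← sum_add_distrib]
          unfold dch
          refine sum_congr rfl fun u _ => ?_
          rw [hγ', hγ', map_mul, hg1]
          unfold dch
          ring
        rw [h3, h1, h2, add_zero]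
      have hz : ∀ A ⊆ T, v ∉ A → G.IsClique (A : Set V) → A.card = k → ∀ q, γ' A q = 0 := by
        intro A hA hvA hAc hAk q
        have h1 := hd0 A (hsub A hA hvA) hAc hAk q
        have h2 : dch D1 η0' A q = dch D1 η0 A q := by
          unfold dch
          refine sum_congr rfl fun u _ => ?_
          have h3 : v ∉ A.erase u := fun h => hvA (mem_of_mem_erase h)
          rw [hη0', hη0', if_neg h3, if_neg h3]
        rw [hγ', h2, h1, zz]
      -- the link of `v`
      obtain ⟨lk, hlk⟩ : ∃ lk : Finset V, ∀ u, u ∈ lk ↔ u ∈ T ∧ G.Adj v u := by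
        classical
        exact ⟨T.filter fun u => G.Adj v u, fun u => mem_filter⟩
      have hlkT : lk ⊆ T.erase v := fun u hu =>
        mem_erase.2 ⟨((hlk u).1 hu).2.ne', ((hlk u).1 hu).1⟩
      have hins : ∀ B ⊆ lk, G.IsClique (B : Set V) → G.IsClique ((insert v B : Finset V) : Set V) := by
        intro B hB hBc
        rw [coe_insert]
        refine hBc.insert fun u hu _ => ((hlk u).1 (hB hu)).2
      have hinsT : ∀ B ⊆ lk, insert v B ⊆ T := fun B hB =>
        insert_subset hv ((hB.trans hlkT).trans (erase_subset _ _))
      have hvlk : ∀ B ⊆ lk, v ∉ B := fun B hB h => (mem_erase.1 (hlkT (hB h))).1 rfl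
      obtain ⟨j, rfl⟩ : ∃ j, k = j + 1 := ⟨k - 1, by omega⟩
      obtain ⟨Q2, _, _, D2, φ2, hg2, hb2, η1, hη1, hd1⟩ := ih lk (insert v C)
        ((card_le_card hlkT).trans hTv) (fun u hu a ha => by
          rcases mem_insert.1 ha with h | h
          · rw [h]; exact ((hlk u).1 hu).2.symm
          · exact hTC u ((hlk u).1 hu).1 a h) j (by omega) Q1 D1 (fun B => γ' (insert v B))
        (fun B hB hBc a ha => hinv' (insert v B) (hinsT B hB) (hins B hB hBc) a (by
          rcases mem_union.1 ha with h | h
          · exact mem_union_left _ (mem_insert_of_mem h)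
          · rcases mem_insert.1 h with h' | h'
            · exact mem_union_left _ (h' ▸ mem_insert_self _ _)
            · exact mem_union_right _ h'))
        (fun B hB hBc hBk q => by
          have hvB := hvlk B hB
          have h1 := hco' (insert v B) (hinsT B hB) (hins B hB hBc)
            (by rw [card_insert_of_notMem hvB, hBk]) q
          unfold dch at h1 ⊢
          rw [sum_insert hvB, erase_insert hvB,
            hz B (hB.trans (hlkT.trans (erase_subset _ _))) hvB hBc hBk,
            hz B (hB.trans (hlkT.trans (erase_subset _ _))) hvB hBc hBk, add_zero, zero_add] at h1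
          rw [← h1]
          refine sum_congr rfl fun u hu => ?_
          have huv : v ≠ u := fun h => hvB (h ▸ hu)
          rw [erase_insert_of_ne huv])
      obtain ⟨η, hη⟩ : ∃ η : Finset V → Q2 → ZMod 2, ∀ B q,
          η B q = (if v ∈ B then η1 (B.erase v) q else 0) + η0' B (φ2 q) :=
        ⟨fun B q => (if v ∈ B then η1 (B.erase v) q else 0) + η0' B (φ2 q), fun _ _ => rfl⟩
      have her : ∀ B ⊆ T, v ∈ B → G.IsClique (B : Set V) → B.erase v ⊆ lk := by
        intro B hB hvB hBc u hu
        obtain ⟨h1, h2⟩ := mem_erase.1 hu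
        exact (hlk u).2 ⟨hB h2, hBc hvB h2 h1.symm⟩
      refine ⟨Q2, inferInstance, inferInstance, D2, φ1.comp φ2,
        fun u => by rw [MonoidHom.comp_apply, hg2, hg1],
        fun q u => by rw [hb2, hb1]; rfl, η, ?_, ?_⟩
      · intro B hB hBc a ha q
        rw [hη, hη, map_mul, hg2, hinv0 B hB hBc a ha]
        congr 1
        split_ifs with h
        · refine hη1 (B.erase v) (her B hB h hBc) (hcl B hBc _ (erase_subset _ _)) a ?_ q
          rcases mem_union.1 ha with h' | h'
          · by_cases hav : a = v
            · exact mem_union_right _ (hav ▸ mem_insert_self _ _)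
            · exact mem_union_left _ (mem_erase.2 ⟨hav, h'⟩)
          · exact mem_union_right _ (mem_insert_of_mem h')
        · rfl
      · intro A hA hAc hAk q
        have h1 : dch D2 η A q = ∑ u ∈ A, ((if v ∈ A.erase u then η1 ((A.erase u).erase v) q else 0) +
            (if v ∈ A.erase u then η1 ((A.erase u).erase v) (q * D2.g u) else 0)) +
            dch D1 η0' A (φ2 q) := by
          unfold dch
          rw [← sum_add_distrib]
          refine sum_congr rfl fun u _ => ?_
          rw [hη, hη, map_mul, hg2]
          ring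
        rw [h1, MonoidHom.comp_apply]
        by_cases hvA : v ∈ A
        · have h2 := hd1 (A.erase v) (her A hA hvA hAc) (hcl A hAc _ (erase_subset _ _))
            (by rw [card_erase_of_mem hvA, hAk]; rfl) q
          unfold dch at h2
          rw [insert_erase hvA] at h2
          have h3 : ∑ u ∈ A, ((if v ∈ A.erase u then η1 ((A.erase u).erase v) q else 0) +
              (if v ∈ A.erase u then η1 ((A.erase u).erase v) (q * D2.g u) else 0)) =
              γ' A (φ2 q) := by
            rw [← h2, ← add_sum_erase A _ hvA]
            have h4 : v ∉ A.erase v := notMem_erase v A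
            rw [if_neg h4, if_neg h4, zero_add, zero_add]
            refine sum_congr rfl fun u hu => ?_
            have h5 : v ∈ A.erase u := mem_erase.2 ⟨(ne_of_mem_erase hu).symm, hvA⟩
            rw [if_pos h5, if_pos h5, erase_right_comm]
          rw [h3, hγ', add_assoc, zz, add_zero]
        · have h2 := hz A hA hvA hAc hAk (φ2 q)
          rw [hγ'] at h2
          have h3 : ∑ u ∈ A, ((if v ∈ A.erase u then η1 ((A.erase u).erase v) q else 0) +
              (if v ∈ A.erase u then η1 ((A.erase u).erase v) (q * D2.g u) else 0)) = 0 := by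
            refine sum_eq_zero fun u _ => ?_
            have h5 : v ∉ A.erase u := fun h => hvA (mem_of_mem_erase h)
            rw [if_neg h5, if_neg h5, add_zero]
          rw [h3, zero_add]
          exact (CharTwo.add_eq_zero.1 h2).symm
    · -- degree one
      have hk0 : k = 1 := by omega
      subst hk0
      obtain ⟨Q, _, _, D', φ, hg, hb, f, hf1, hf2⟩ := good_one D T C hTC (fun u => γ {u})
        (fun u hu a ha p => by
          refine hinv {u} (by simpa using hu) (by simp) a ?_ p
          rcases ha with h | h
          · exact mem_union_left _ (mem_singleton.2 h)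
          · exact mem_union_right _ h)
        (fun u hu w hw huw p => by
          have hne : u ≠ w := huw.ne
          have h1 := hco {u, w} (by
            intro x hx
            rcases mem_insert.1 hx with h | h
            · rw [h]; exact hu
            · rw [mem_singleton.1 h]; exact hw) (by
            rw [coe_insert, coe_singleton, SimpleGraph.isClique_pair]
            exact fun _ => huw) (card_pair hne) p
          unfold dch at h1
          rw [sum_pair hne] at h1
          have h2 : ({u, w} : Finset V).erase u = {w} := by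
            rw [erase_insert (by simpa using hne)]
          have h3 : ({u, w} : Finset V).erase w = {u} := by
            rw [pair_comm, erase_insert (by simpa using hne.symm)]
          rw [h2, h3] at h1
          have h4 : ∀ a b c d : ZMod 2, a + b + (c + d) = 0 → c + b = a + d := by decide
          exact h4 _ _ _ _ h1)
      refine ⟨Q, inferInstance, inferInstance, D', φ, hg, hb, fun B q => if B = ∅ then f q else 0,
        fun B _ _ a ha q => ?_, fun A hA _ hAk q => ?_⟩
      · show (if B = ∅ then f (q * D'.g a) else 0) = if B = ∅ then f q else 0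
        split_ifs with h
        · rw [h, empty_union] at ha
          exact hf1 a ha q
        · rfl
      · obtain ⟨u, rfl⟩ := card_eq_one.1 hAk
        unfold dch
        rw [sum_singleton, erase_singleton]
        show (if (∅ : Finset V) = ∅ then f q else 0) +
          (if (∅ : Finset V) = ∅ then f (q * D'.g u) else 0) = γ {u} (φ q)
        rw [if_pos rfl, if_pos rfl, hf2 u (by simpa using hA), ← add_assoc, zz, zero_add]

end Pool.Agent.S6
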