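import Pool.Agent.S6.Defs

/-!
# Project S6, module KeyT6: the coefficients of the relation
-/

set_option autoImplicit false
set_option linter.unusedSectionVars false

open Finset

namespace Pool.Agent.S6

open Pool.Agent.H77.SW Pool.Agent.H19.SR

variable {V : Type} [DecidableEq V] [Fintype V] {P : Type} [Group P] [Fintype P] {K : Type}
  [Field K] [CharP K 2]

/-- The square of a sum in characteristic two. -/
private theorem KeyT_sum_sq {α : Type} (S : Finset α) (f : α → K) :
    (∑ a ∈ S, f a) ^ 2 = ∑ a ∈ S, f a ^ 2 := by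
  classical
  induction S using Finset.induction_on with
  | empty => rw [sum_empty, sum_empty, zero_pow two_ne_zero]
  | insert a S ha ih =>
    rw [sum_insert ha, sum_insert ha, CharTwo.add_sq, ih]

private theorem KeyT_cst (a : ZMod 2) : cst K a ^ 2 = cst K a := by
  unfold cst
  split_ifs
  · rw [zero_pow two_ne_zero]
  · rw [one_pow]

theorem cst_zero : cst K 0 = 0 := if_pos rfl

theorem cst_add (a b : ZMod 2) : cst K (a + b) = cst K a + cst K b := by
  have h01 : ∀ x : ZMod 2, x = 0 ∨ x = 1 := by decide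
  have h10 : (1 : ZMod 2) ≠ 0 := by decide
  have h11 : (1 : ZMod 2) + 1 = 0 := by decide
  unfold cst
  rcases h01 a with rfl | rfl <;> rcases h01 b with rfl | rfl
  · rw [add_zero, if_pos rfl, add_zero]
  · rw [zero_add, if_neg h10, if_pos rfl, zero_add]
  · rw [add_zero, if_neg h10, if_pos rfl, add_zero]
  · rw [h11, if_pos rfl, if_neg h10, CharTwo.add_self_eq_zero]

theorem cst_sum {ι : Type} (I : Finset ι) (f : ι → ZMod 2) :
    cst K (∑ i ∈ I, f i) = ∑ i ∈ I, cst K (f i) := by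
  classical
  induction I using Finset.induction_on with
  | empty => rw [sum_empty, sum_empty, cst_zero]
  | insert a I ha ih => rw [sum_insert ha, sum_insert ha, cst_add, ih]

/-- linear combinations of cocycles -/
theorem coc_comb {G : SimpleGraph V} (D : PG G P) {d : ℕ} {J : Type} [Fintype J] (c : J → K)
    {γ : J → Finset V → P → ZMod 2} (h : ∀ m, Coc D d (γ m)) :
    Coc D d fun A p => ∑ m, c m * cst K (γ m A p) := by
  intro A hA hAc p hp
  simp only [← sum_add_distrib]
  rw [sum_comm]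
  refine sum_eq_zero fun m _ => ?_
  have h1 : ∀ v ∈ A, c m * cst K (γ m (A.erase v) p) + c m * cst K (γ m (A.erase v) (p * D.g v)) =
      c m * cst K (γ m (A.erase v) p + γ m (A.erase v) (p * D.g v)) := by
    intro v _
    rw [cst_add, mul_add]
  rw [sum_congr rfl h1, ← mul_sum, ← cst_sum, h m A hA hAc p hp, cst_zero, mul_zero]

/-- it is enough to prove the relation for all cocycles over `K` -/
theorem keyRel6_of {G : SimpleGraph V} {i : ℕ} {s : Finset V}
    (h : ∀ (K : Type) [Field K] [CharP K 2] (P : Type) [Group P] [Fintype P] (D : PG G P),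
      Subgroup.closure (Set.range D.g) = ⊤ → ∀ t : V → P → K, StarInv D t →
      ∀ θ : Finset V → P → K, Coc D (i - s.card) θ →
      ∀ x ∈ Zt K D i (s.card + 1) (i - s.card) s t θ,
        ∑ A ∈ (univ : Finset (Finset V)).filter (fun A => s ⊆ A), ∑ p ∈ bz D A,
          θ (A \ s) p * (∏ v ∈ s, t v p) * x.1 A (∅, p) ^ 2 = 0) : KeyRel6 G i s := by
  intro K _ _ P _ _ D hgen t ht J _ c γ hγ x hx
  exact h K P D hgen t ht _ (coc_comb D c hγ) x hx

/-- Grouping of a sum by the monomials. -/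
private theorem KeyT_group (X : GenSeq K) {α : Type} [DecidableEq α] (T : Finset α)
    (M : α → Finset ℕ) (f : α → K) (h : ∑ a ∈ T, (∏ j ∈ M a, X.x j) * f a ^ 2 = 0) (S : Finset ℕ) :
    ∑ a ∈ T.filter (fun a => M a = S), f a = 0 := by
  classical
  by_cases hS : S ∈ T.image M
  · refine X.indep (T.image M) (fun S => ∑ a ∈ T.filter (fun a => M a = S), f a) ?_ S hS
    rw [← h, ← sum_fiberwise_of_maps_to (g := M) (t := T.image M)
      (fun a ha => mem_image_of_mem M ha)]
    refine sum_congr rfl fun S' _ => ?_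
    rw [KeyT_sum_sq, mul_sum]
    refine sum_congr rfl fun a ha => ?_
    rw [(mem_filter.1 ha).2]
  · refine (sum_congr ?_ fun _ _ => rfl).trans (sum_empty (f := f))
    refine filter_eq_empty_iff.2 fun a ha h1 => hS ?_
    rw [← h1]
    exact mem_image_of_mem M ha

private theorem KeyT_ins {A B : Finset ℕ} {N a b : ℕ} (hA : ∀ x ∈ A, x < N) (hB : ∀ x ∈ B, x < N)
    (h : insert (N + a) A = insert (N + b) B) : a = b ∧ A = B := by
  have h1 : N + a ∈ insert (N + b) B := by
    rw [← h]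
    exact mem_insert_self _ _
  have h2 : a = b := by
    rcases mem_insert.1 h1 with h2 | h2
    · omega
    · have := hB _ h2
      omega
  refine ⟨h2, ?_⟩
  have h3 : (insert (N + a) A).erase (N + a) = A := by
    refine erase_insert fun h4 => ?_
    have := hA _ h4
    omega
  have h4 : (insert (N + b) B).erase (N + b) = B := by
    refine erase_insert fun h4 => ?_
    have := hB _ h4
    omega
  rw [← h3, ← h4, h, h2]

/-- **The coefficients.** The walls are the pairs `(v, p wl D v)`: `I = Σ v, P ⧸ wl D v`, `ι v p = ⟨v, p⟩`,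
`τ` = the elements of the sequence `X` at an injective numbering of `I`; `J` = all cocycles of degree `i - |s|` over
`ZMod 2`, their coefficients are the next elements of the sequence. -/
theorem keyT6 {G : SimpleGraph V} {i : ℕ} {s : Finset V} (hK : KeyRel6 G i s) : KeyAt6 G i s := by
  intro K _ _ X P _ _ D hgen
  classical
  have hI : Fintype (Σ v : V, P ⧸ wl D v) := by
    have : ∀ v, Fintype (P ⧸ wl D v) := fun v => Fintype.ofFinite _
    infer_instance
  obtain ⟨e⟩ : Nonempty ((Σ v : V, P ⧸ wl D v) ≃ Fin (Fintype.card (Σ v : V, P ⧸ wl D v))) :=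
    ⟨Fintype.equivFin _⟩
  obtain ⟨ι, hι⟩ : ∃ ι : V → P → (Σ v : V, P ⧸ wl D v), ∀ v p, ι v p = ⟨v, (p : P ⧸ wl D v)⟩ :=
    ⟨fun v p => ⟨v, (p : P ⧸ wl D v)⟩, fun _ _ => rfl⟩
  have hinv : ∀ v u, (u = v ∨ G.Adj v u) → ∀ p, ι v (p * D.g u) = ι v p := by
    intro v u hu p
    rw [hι, hι]
    congr 1
    rw [QuotientGroup.eq, mul_inv_rev, mul_assoc, inv_mul_cancel, mul_one]
    exact Subgroup.inv_mem _ (Subgroup.subset_closure ⟨u, hu, rfl⟩)
  -- the cocycles
  have hJ : Fintype {γ : Finset V → P → ZMod 2 // Coc D (i - s.card) γ} := Fintype.ofFinite _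
  obtain ⟨e'⟩ : Nonempty ({γ : Finset V → P → ZMod 2 // Coc D (i - s.card) γ} ≃
      Fin (Fintype.card {γ : Finset V → P → ZMod 2 // Coc D (i - s.card) γ})) :=
    ⟨Fintype.equivFin _⟩
  obtain ⟨N, hN⟩ : ∃ N, N = Fintype.card (Σ v : V, P ⧸ wl D v) := ⟨_, rfl⟩
  refine ⟨(Σ v : V, P ⧸ wl D v), hI, Classical.decEq _, ι, fun i => X.x (e i).val,
    {γ : Finset V → P → ZMod 2 // Coc D (i - s.card) γ}, hJ, fun m => X.x (N + (e' m).val),
    fun m => m.1, hinv, fun m => m.2, ?_⟩
  intro x hx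
  obtain ⟨hz, -, -, -⟩ := mem_Zt.1 hx
  obtain ⟨z, hzx⟩ : ∃ z, z = x.1 := ⟨_, rfl⟩
  rw [← hzx] at hz ⊢
  obtain ⟨z1, z2, z3⟩ := mem_Zs.1 hz
  rw [mem_TL]
  refine ⟨mem_Zs.2 ⟨fun σ h => z1 σ fun h0 => h ?_, fun σ v hv => ?_, fun κ => ?_⟩, ?_⟩
  · funext p
    show z σ (∅, p) = 0
    rw [h0]
    rfl
  · funext p
    have h1 := congrFun (z2 σ v hv) (∅, p)
    have h2 : z σ (∅, p * D.g v) + (if v ∈ s ∧ v ∈ (∅ : Finset V) then
        X.x (e (ι v p)).val * z σ ((∅ : Finset V).erase v, p * D.g v) else 0) = z σ (∅, p) := h1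
    rw [if_neg (fun h => absurd h.2 (notMem_empty v)), add_zero] at h2
    exact h2
  · funext p
    have h1 := congrFun (z3 κ) (∅, p)
    rw [Finset.sum_apply] at h1 ⊢
    exact h1
  intro γ hγ p₀
  -- the monomials
  obtain ⟨M, hM⟩ : ∃ M : P → Finset ℕ, ∀ p, M p = s.image fun v => (e (ι v p)).val :=
    ⟨fun p => s.image fun v => (e (ι v p)).val, fun _ => rfl⟩
  have hMN : ∀ p, ∀ j ∈ M p, j < N := by
    intro p j hj
    rw [hM, mem_image] at hj
    obtain ⟨v, _, rfl⟩ := hj
    rw [hN]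
    exact (e (ι v p)).isLt
  have hinj1 : ∀ v w p q, (e (ι v p)).val = (e (ι w q)).val → v = w ∧ p⁻¹ * q ∈ wl D v := by
    intro v w p q h
    have h1 : ι v p = ι w q := e.injective (Fin.val_injective h)
    rw [hι, hι] at h1
    have h2 : v = w := congrArg Sigma.fst h1
    subst h2
    refine ⟨rfl, ?_⟩
    have h3 : (p : P ⧸ wl D v) = (q : P ⧸ wl D v) := eq_of_heq (Sigma.mk.inj h1).2
    exact QuotientGroup.eq.1 h3
  have hprod : ∀ p, ∏ v ∈ s, X.x (e (ι v p)).val = ∏ i ∈ M p, X.x i := by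
    intro p
    rw [hM, prod_image]
    intro v _ w _ h
    exact (hinj1 v w p p h).1
  have hMeq : ∀ p, M p = M p₀ ↔ ∀ v ∈ s, p₀⁻¹ * p ∈ wl D v := by
    intro p
    constructor
    · intro h v hv
      have h2 : (e (ι v p₀)).val ∈ M p := by
        rw [h, hM]
        exact mem_image_of_mem _ hv
      rw [hM, mem_image] at h2
      obtain ⟨w, _, hw⟩ := h2
      exact (hinj1 v w p₀ p hw.symm).2
    · intro h
      rw [hM, hM]
      refine image_congr fun v hv => ?_
      have h1 : ι v p = ι v p₀ := by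
        rw [hι, hι]
        congr 1
        exact (QuotientGroup.eq.2 (h v hv)).symm
      show (e (ι v p)).val = (e (ι v p₀)).val
      rw [h1]
  -- the relation
  have hrel := hK K P D hgen (fun v p => X.x (e (ι v p)).val)
    (fun v u hu p => congrArg (fun x => X.x (e x).val) (hinv v u hu p)) _
    (fun m : {γ : Finset V → P → ZMod 2 // Coc D (i - s.card) γ} =>
      X.x (N + (e' m).val)) (fun m => m.1) (fun m => m.2) x hx
  rw [← hzx] at hrel
  let T : Finset (Σ _ : Finset V, P) :=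
    ((univ : Finset (Finset V)).filter fun A => s ⊆ A).sigma fun A => bz D A
  let T' : Finset ((Σ _ : Finset V, P) ×
      {γ : Finset V → P → ZMod 2 // Coc D (i - s.card) γ}) := T ×ˢ univ
  let f : (Σ _ : Finset V, P) × {γ : Finset V → P → ZMod 2 // Coc D (i - s.card) γ} → K :=
    fun y => cst K (y.2.1 (y.1.1 \ s) y.1.2) * z y.1.1 (∅, y.1.2)
  have hg := KeyT_group X T' (fun y => insert (N + (e' y.2).val) (M y.1.2)) f (by
    rw [← hrel, sum_product, sum_sigma]
    refine sum_congr rfl fun A _ => sum_congr rfl fun p _ => ?_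
    rw [sum_mul, sum_mul]
    refine sum_congr rfl fun m _ => ?_
    show (∏ j ∈ insert (N + (e' m).val) (M p), X.x j) *
        (cst K (m.1 (A \ s) p) * z A (∅, p)) ^ 2 =
      X.x (N + (e' m).val) * cst K (m.1 (A \ s) p) * (∏ v ∈ s, X.x (e (ι v p)).val) *
        z A (∅, p) ^ 2
    rw [prod_insert (fun h => by have := hMN p _ h; omega), hprod, mul_pow, KeyT_cst]
    ring) (insert (N + (e' ⟨γ, hγ⟩).val) (M p₀))
  rw [← hg]
  have hT' : T'.filter (fun y => insert (N + (e' y.2).val) (M y.1.2) =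
      insert (N + (e' ⟨γ, hγ⟩).val) (M p₀)) =
      (T.filter fun x => M x.2 = M p₀) ×ˢ {⟨γ, hγ⟩} := by
    ext ⟨a, m⟩
    rw [mem_filter, mem_product, mem_product, mem_filter, mem_singleton]
    constructor
    · rintro ⟨⟨h1, -⟩, h2⟩
      obtain ⟨h3, h4⟩ := KeyT_ins (hMN _) (hMN _) h2
      exact ⟨⟨h1, h4⟩, e'.injective (Fin.val_injective h3)⟩
    · rintro ⟨⟨h1, h2⟩, h3⟩
      refine ⟨⟨h1, mem_univ _⟩, ?_⟩
      show insert (N + (e' m).val) (M a.2) = _
      have h3' : m = ⟨γ, hγ⟩ := h3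
      rw [h2, h3']
  have hT : T.filter (fun x => M x.2 = M p₀) =
      ((univ : Finset (Finset V)).filter fun A => s ⊆ A).sigma fun A => fl D s A p₀ := by
    ext ⟨A, p⟩
    rw [mem_filter, mem_sigma, mem_sigma]
    unfold bz fl
    rw [mem_filter, mem_filter, mem_filter]
    show ((_ ∧ _ ∧ _) ∧ M p = M p₀) ↔ _
    rw [hMeq]
    constructor
    · rintro ⟨⟨h1, h2, h3⟩, h4⟩
      exact ⟨h1, h2, h3, h4⟩
    · rintro ⟨h1, h2, h3, h4⟩
      exact ⟨⟨h1, h2, h3⟩, h4⟩
  rw [hT', sum_product, hT, sum_sigma]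
  refine sum_congr rfl fun A _ => sum_congr rfl fun p _ => ?_
  rw [sum_singleton]

end Pool.Agent.S6
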