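import Pool.Agent.S6.Cap

/-!
# Project S6, module S3a: the lower bound for the cone, general form
-/

set_option autoImplicit false
set_option linter.unusedSectionVars false

open Finset

namespace Pool.Agent.S6

open Pool.Agent.H77.SW Pool.Agent.H19.SR

variable {V : Type} [DecidableEq V] [Fintype V] {K : Type} [Field K] [CharP K 2]

/-- the involutions on the functions `Q → (J → K)` -/
private def crh {G : SimpleGraph V} {Q : Type} [Group Q] (D : PG G Q) {J : Type}
    (r : V → (J → K) →ₗ[K] (J → K)) (v : V) : (Q → J → K) →ₗ[K] (Q → J → K) where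
  toFun φ p := r v (φ (p * D.g v))
  map_add' φ ψ := by
    funext p
    simp
  map_smul' c φ := by
    funext p
    simp

/-- the map `φ` at every point of `Q` -/
private def cph {Q J : Type} (φ : (Finset V → J → K) →ₗ[K] (Finset V → J → K)) :
    (Finset V → Q → J → K) →ₗ[K] (Finset V → Q → J → K) where
  toFun z κ q := φ (fun σ => z σ q) κ
  map_add' z w := by
    funext κ q
    rw [show (fun σ => (z + w) σ q) = (fun σ => z σ q) + fun σ => w σ q from rfl, map_add]
    rfl
  map_smul' c z := by
    funext κ q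
    rw [show (fun σ => (c • z) σ q) = c • (fun σ => z σ q) from rfl, map_smul]
    rfl

/-- the pairs of functions which are invariant under the left translations by `H` -/
private def cS (G : SimpleGraph V) (i e : ℕ) {Q : Type} [Group Q] (D : PG G Q) {J : Type}
    (r : V → (J → K) →ₗ[K] (J → K)) (φ : (Finset V → J → K) →ₗ[K] (Finset V → J → K))
    (H : Subgroup Q) : Submodule K ((Finset V → Q → J → K) × (Finset V → Q → J → K)) where
  carrier := {x | x ∈ ZC K G i e (crh D r) (cph φ) ∧
    ∀ h ∈ H, ∀ σ p, x.1 σ (h * p) = x.1 σ p ∧ x.2 σ (h * p) = x.2 σ p}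
  zero_mem' := ⟨Submodule.zero_mem _, fun _ _ _ _ => ⟨rfl, rfl⟩⟩
  add_mem' := by
    rintro φ ψ ⟨h1, h2⟩ ⟨h3, h4⟩
    refine ⟨Submodule.add_mem _ h1 h3, fun h hh σ p => ⟨?_, ?_⟩⟩
    · simp only [Prod.fst_add, Pi.add_apply, (h2 h hh σ p).1, (h4 h hh σ p).1]
    · simp only [Prod.snd_add, Pi.add_apply, (h2 h hh σ p).2, (h4 h hh σ p).2]
  smul_mem' := by
    rintro c φ ⟨h1, h2⟩
    refine ⟨Submodule.smul_mem _ c h1, fun h hh σ p => ⟨?_, ?_⟩⟩
    · simp only [Prod.smul_fst, Pi.smul_apply, (h2 h hh σ p).1]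
    · simp only [Prod.smul_snd, Pi.smul_apply, (h2 h hh σ p).2]

/-- left translation of pairs -/
private def cL {Q : Type} [Group Q] {J : Type} (c : Q)
    (x : (Finset V → Q → J → K) × (Finset V → Q → J → K)) :
    (Finset V → Q → J → K) × (Finset V → Q → J → K) :=
  (fun σ p => x.1 σ (c * p), fun σ p => x.2 σ (c * p))

/-- left translation preserves the pairs -/
private theorem ctrans_mem {G : SimpleGraph V} {i e : ℕ} {Q : Type} [Group Q] {D : PG G Q} {J : Type}
    {r : V → (J → K) →ₗ[K] (J → K)} {φ : (Finset V → J → K) →ₗ[K] (Finset V → J → K)}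
    {x : (Finset V → Q → J → K) × (Finset V → Q → J → K)}
    (h : x ∈ ZC K G i e (crh D r) (cph φ)) (c : Q) : cL c x ∈ ZC K G i e (crh D r) (cph φ) := by
  obtain ⟨⟨h1, h2, h3⟩, h4, h5, h6⟩ := h
  refine ⟨⟨fun σ hσ => h1 σ fun h0 => hσ ?_, fun σ v hv => ?_, fun κ => ?_⟩,
    fun σ hσ => h4 σ fun h0 => hσ ?_, fun σ v hv => ?_, fun κ => ?_⟩
  · funext p
    change x.1 σ (c * p) = 0
    rw [h0]
    rfl
  · funext p
    have := congrFun (h2 σ v hv) (c * p)
    change r v (x.1 σ (c * p * D.g v)) = x.1 σ (c * p) at this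
    change r v (x.1 σ (c * (p * D.g v))) = x.1 σ (c * p)
    rw [← mul_assoc]
    exact this
  · funext p
    have := congrFun (h3 κ) (c * p)
    rw [Finset.sum_apply] at this ⊢
    exact this
  · funext p
    change x.2 σ (c * p) = 0
    rw [h0]
    rfl
  · funext p
    have := congrFun (h5 σ v hv) (c * p)
    change r v (x.2 σ (c * p * D.g v)) = x.2 σ (c * p) at this
    change r v (x.2 σ (c * (p * D.g v))) = x.2 σ (c * p)
    rw [← mul_assoc]
    exact this
  · funext p
    have := congrFun (h6 κ) (c * p)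
    rw [Finset.sum_apply] at this ⊢
    exact this

/-- the norm as a linear map -/
private def cT {Q : Type} [Group Q] {J : Type} (c : Q) :
    ((Finset V → Q → J → K) × (Finset V → Q → J → K)) →ₗ[K]
      ((Finset V → Q → J → K) × (Finset V → Q → J → K)) where
  toFun x := x + cL c x
  map_add' x y := by
    have h : cL c (x + y) = cL c x + cL c y := rfl
    rw [h]
    abel
  map_smul' k x := by
    have h : cL c (k • x) = k • cL c x := rfl
    rw [h, RingHom.id_apply, smul_add]

private theorem cchar_add {J : Type} (f : J → K) : f + f = 0 := by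
  funext j
  exact CharTwo.add_self_eq_zero _

private theorem cstep (G : SimpleGraph V) (i e : ℕ) {Q : Type} [Group Q] [Fintype Q] (D : PG G Q)
    {J : Type} [Fintype J] (r : V → (J → K) →ₗ[K] (J → K))
    (φ : (Finset V → J → K) →ₗ[K] (Finset V → J → K)) {H H' : Subgroup Q} (hle : H ≤ H')
    (hc : Nat.card H' = 2 * Nat.card H) :
    Module.finrank K (cS G i e D r φ H) ≤ 2 * Module.finrank K (cS G i e D r φ H') := by
  have hpos : 0 < Nat.card H := Nat.card_pos
  -- an element outside
  obtain ⟨c, hc1, hc2⟩ : ∃ c ∈ H', c ∉ H := by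
    by_contra hcon
    push Not at hcon
    have : H = H' := le_antisymm hle hcon
    rw [this] at hc hpos
    omega
  have hidx : (H.subgroupOf H').index = 2 := by
    have h1 := (H.subgroupOf H').card_mul_index
    have h2 : Nat.card (H.subgroupOf H') = Nat.card H :=
      Nat.card_congr (Subgroup.subgroupOfEquivOfLe hle).toEquiv
    rw [h2, hc] at h1
    have h3 : Nat.card H * (H.subgroupOf H').index = Nat.card H * 2 := by rw [h1]; ring
    exact Nat.eq_of_mul_eq_mul_left hpos h3
  have hmul : ∀ a ∈ H', ∀ b ∈ H', a ∉ H → b ∉ H → a * b ∈ H := by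
    intro a ha b hb ha' hb'
    have := (Subgroup.mul_mem_iff_of_index_two hidx (a := ⟨a, ha⟩) (b := ⟨b, hb⟩))
    simp only [Subgroup.mem_subgroupOf] at this
    exact this.2 (by simp [ha', hb'])
  have hci : c⁻¹ ∉ H := fun h => hc2 (by simpa using H.inv_mem h)
  have hnot : ∀ h ∈ H, c * h ∉ H := fun h hh h' => hc2 (by
    have := H.mul_mem h' (H.inv_mem hh)
    simpa using this)
  -- the norm of one component
  have hone : ∀ f : Finset V → Q → J → K, (∀ h ∈ H, ∀ σ p, f σ (h * p) = f σ p) →
      ∀ h ∈ H', ∀ σ p, f σ (h * p) + f σ (c * (h * p)) = f σ p + f σ (c * p) := by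
    intro f h2 h hh σ p
    by_cases hH : h ∈ H
    · rw [h2 h hH]
      have h3 : c * h * c⁻¹ ∈ H := hmul _ (H'.mul_mem hc1 hh) _ (H'.inv_mem hc1) (hnot h hH) hci
      have h4 : c * (h * p) = c * h * c⁻¹ * (c * p) := by group
      rw [h4, h2 _ h3]
    · have h3 : h * c⁻¹ ∈ H := hmul _ hh _ (H'.inv_mem hc1) hH hci
      have h4 : h * p = h * c⁻¹ * (c * p) := by group
      have h5 : c * h ∈ H := hmul _ hc1 _ hh hc2 hH
      have h6 : c * (h * p) = c * h * p := by group
      rw [h6, h2 _ h5, h4, h2 _ h3]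
      exact add_comm _ _
  have htwo : ∀ f : Finset V → Q → J → K, (∀ h ∈ H, ∀ σ p, f σ (h * p) = f σ p) →
      (∀ σ p, f σ p + f σ (c * p) = 0) → ∀ h ∈ H', ∀ σ p, f σ (h * p) = f σ p := by
    intro f h2 h0 h hh σ p
    have h0' : ∀ σ p, f σ (c * p) = f σ p := by
      intro σ p
      have h5 := cchar_add (K := K) (f σ p)
      exact (add_left_cancel (h5.trans (h0 σ p).symm)).symm
    by_cases hH : h ∈ H
    · exact h2 h hH σ p
    · have h3 : h * c⁻¹ ∈ H := hmul _ hh _ (H'.inv_mem hc1) hH hci
      have h4 : h * p = h * c⁻¹ * (c * p) := by group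
      rw [h4, h2 _ h3, h0']
  -- the norm maps into the invariants
  have hmaps : ∀ x ∈ cS G i e D r φ H, cT c x ∈ cS G i e D r φ H' := by
    rintro x ⟨h1, h2⟩
    refine ⟨Submodule.add_mem _ h1 (ctrans_mem h1 c), fun h hh σ p => ⟨?_, ?_⟩⟩
    · exact hone x.1 (fun h hh σ p => (h2 h hh σ p).1) h hh σ p
    · exact hone x.2 (fun h hh σ p => (h2 h hh σ p).2) h hh σ p
  let N : cS G i e D r φ H →ₗ[K] cS G i e D r φ H' :=
    ((cT c).comp (cS G i e D r φ H).subtype).codRestrict _ fun x => hmaps x.1 x.2
  have hker : Module.finrank K (LinearMap.ker N) ≤ Module.finrank K (cS G i e D r φ H') := by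
    have hk : ∀ x : LinearMap.ker N, ((x : cS G i e D r φ H) :
        (Finset V → Q → J → K) × (Finset V → Q → J → K)) ∈ cS G i e D r φ H' := by
      rintro ⟨⟨x, h1, h2⟩, hx⟩
      have h3 : x + cL c x = 0 := congrArg Subtype.val (LinearMap.mem_ker.1 hx)
      have h4 : ∀ σ p, x.1 σ p + x.1 σ (c * p) = 0 := fun σ p =>
        congrFun (congrFun (congrArg Prod.fst h3) σ) p
      have h5 : ∀ σ p, x.2 σ p + x.2 σ (c * p) = 0 := fun σ p =>
        congrFun (congrFun (congrArg Prod.snd h3) σ) p
      exact ⟨h1, fun h hh σ p => ⟨htwo x.1 (fun h hh σ p => (h2 h hh σ p).1) h4 h hh σ p,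
        htwo x.2 (fun h hh σ p => (h2 h hh σ p).2) h5 h hh σ p⟩⟩
    let M : LinearMap.ker N →ₗ[K] cS G i e D r φ H' :=
      ((cS G i e D r φ H).subtype.comp (LinearMap.ker N).subtype).codRestrict _ hk
    refine LinearMap.finrank_le_finrank_of_injective (f := M) ?_
    intro x y hxy
    have := congrArg Subtype.val hxy
    exact Subtype.ext (Subtype.ext this)
  have h1 := LinearMap.finrank_range_add_finrank_ker N
  have h2 := Submodule.finrank_le (LinearMap.range N)
  omega

/-- **The lower bound for the cone** (the version of `Pool.Agent.H77.SW.lower` with pairs; `Lower.lean` is the model,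
copy it). `φ` is any linear map on the functions with values in `J → K`; on the functions with values in
`Q → J → K` it acts at every point of `Q`. `W` is the correction: for `z j ∈ Zs K G i (rP K D')` (`j : J`) the
`W z j` are chains of degree `e` and the boundary of `R q (fun j => W z j σ q)` is `φ` of `R q (fun j => z j σ q)`.

Proof. Consider the pairs `(φ₁, φ₂)` of functions `Finset V → Q → J → K` in `ZC K G i e r̂ φ̂`,
`(r̂ v f) q = r v (f (q * g v))`, `φ̂ z κ q = φ (fun σ => z σ q) κ`.
(1) `((z j, y j)_j) ↦ (R q (fun j => z j σ q), R q (fun j => y j σ q + W z j σ q))` is an injective linear map from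
`J → Zs K G i (rP K D') × Zs K G e (rP K D')` to these pairs.
(2) The chain of subgroups as in `lower`, with `S H` = the pairs with both components invariant under the left
translations by `H`; `φ̂` commutes with the left translations. `S ⊤` is `ZC K G i e r φ` (value at `1`). -/
theorem lowerC (G : SimpleGraph V) (i e : ℕ) {Q : Type} [Group Q] [Fintype Q] (D' : PG G Q)
    {J : Type} [Fintype J] (r : V → (J → K) →ₗ[K] (J → K))
    (φ : (Finset V → J → K) →ₗ[K] (Finset V → J → K))
    (R : Q → (J → K) →ₗ[K] (J → K)) (hR : ∀ q, Function.Injective (R q))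
    (hr : ∀ q v f, r v (R (q * D'.g v) f) = R q f)
    (W : (J → Finset V → Q → K) →ₗ[K] (J → Finset V → Q → K))
    (hW1 : ∀ z : J → Finset V → Q → K, (∀ j, z j ∈ Zs K G i (rP K D')) → ∀ j,
      (∀ σ, W z j σ ≠ 0 → G.IsClique (σ : Set V) ∧ σ.card = e) ∧
      ∀ σ, ∀ v ∈ σ, ∀ q, W z j σ (q * D'.g v) = W z j σ q)
    (hW2 : ∀ z : J → Finset V → Q → K, (∀ j, z j ∈ Zs K G i (rP K D')) → ∀ κ q,
      ∑ v ∈ κᶜ, R q (fun j => W z j (insert v κ) q) = φ (fun σ => R q fun j => z j σ q) κ) :
    Fintype.card J * (dz K i D' + dz K e D') ≤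
      Fintype.card Q * Module.finrank K (ZC K G i e r φ) := by
  classical
  -- (1)
  have h1 : Fintype.card J * (dz K i D' + dz K e D') ≤
      Module.finrank K (ZC K G i e (crh D' r) (cph φ)) := by
    -- the underlying functions
    let U : (J → (Zs K G i (rP K D') × Zs K G e (rP K D'))) →ₗ[K] (J → Finset V → Q → K) :=
      LinearMap.pi fun j => (Zs K G i (rP K D')).subtype.comp
        ((LinearMap.fst K _ _).comp (LinearMap.proj j))
    let U' : (J → (Zs K G i (rP K D') × Zs K G e (rP K D'))) →ₗ[K] (J → Finset V → Q → K) :=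
      LinearMap.pi fun j => (Zs K G e (rP K D')).subtype.comp
        ((LinearMap.snd K _ _).comp (LinearMap.proj j))
    let A : (J → Finset V → Q → K) →ₗ[K] (Finset V → Q → J → K) :=
      { toFun := fun z σ p => R p (fun j => z j σ p)
        map_add' := fun z w => by
          funext σ p
          rw [show (fun j => (z + w) j σ p) = (fun j => z j σ p) + fun j => w j σ p
            from rfl, map_add]
          rfl
        map_smul' := fun c z => by
          funext σ p
          rw [show (fun j => (c • z) j σ p) = c • (fun j => z j σ p) from rfl, map_smul]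
          rfl }
    have hA : ∀ z σ p, A z σ p = R p (fun j => z j σ p) := fun _ _ _ => rfl
    let Φ : (J → (Zs K G i (rP K D') × Zs K G e (rP K D'))) →ₗ[K]
        ((Finset V → Q → J → K) × (Finset V → Q → J → K)) :=
      LinearMap.prod (A.comp U) (A.comp (U' + W.comp U))
    have hΦ1 : ∀ z, (Φ z).1 = A (U z) := fun _ => rfl
    have hΦ2 : ∀ z, (Φ z).2 = A (U' z + W (U z)) := fun _ => rfl
    have hU : ∀ z j, U z j ∈ Zs K G i (rP K D') := fun z j => (z j).1.2
    have hU' : ∀ z j, U' z j ∈ Zs K G e (rP K D') := fun z j => (z j).2.2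
    -- one component
    have hsup : ∀ (w : J → Finset V → Q → K) (m : ℕ),
        (∀ j σ, w j σ ≠ 0 → G.IsClique (σ : Set V) ∧ σ.card = m) →
        ∀ σ, A w σ ≠ 0 → G.IsClique (σ : Set V) ∧ σ.card = m := by
      intro w m hw σ hσ
      by_contra hcon
      refine hσ ?_
      have h0 : ∀ j, w j σ = 0 := by
        intro j
        by_contra h
        exact hcon (hw j σ h)
      funext p
      rw [hA, show (fun j => w j σ p) = 0 from funext fun j => by rw [h0 j]; rfl, map_zero]
      rfl
    have hinv : ∀ (w : J → Finset V → Q → K) (σ : Finset V) (v : V),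
        (∀ j q, w j σ (q * D'.g v) = w j σ q) → crh D' r v (A w σ) = A w σ := by
      intro w σ v hw
      funext p
      change r v (A w σ (p * D'.g v)) = A w σ p
      rw [hA, hA, hr]
      congr 1
      funext j
      exact hw j p
    have hbd : ∀ (w : J → Finset V → Q → K) (κ : Finset V) (p : Q),
        (∑ v ∈ κᶜ, A w (insert v κ)) p = R p (fun j => ∑ v ∈ κᶜ, w j (insert v κ) p) := by
      intro w κ p
      rw [Finset.sum_apply]
      simp only [hA]
      rw [← map_sum]
      congr 1
      funext j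
      rw [Finset.sum_apply]
    have hZi : ∀ (w : J → Finset V → Q → K) (m : ℕ), (∀ j, w j ∈ Zs K G m (rP K D')) →
        ∀ σ, ∀ v ∈ σ, ∀ j q, w j σ (q * D'.g v) = w j σ q := by
      intro w m hw σ v hv j q
      exact congrFun ((hw j).2.1 σ v hv) q
    have hZb : ∀ (w : J → Finset V → Q → K) (m : ℕ), (∀ j, w j ∈ Zs K G m (rP K D')) →
        ∀ (κ : Finset V) (p : Q), R p (fun j => ∑ v ∈ κᶜ, w j (insert v κ) p) = 0 := by
      intro w m hw κ p
      rw [show (fun j => ∑ v ∈ κᶜ, w j (insert v κ) p) = 0 from funext fun j => by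
        have := congrFun ((hw j).2.2 κ) p
        rw [Finset.sum_apply] at this
        exact this, map_zero]
    have hΦ : ∀ z, Φ z ∈ ZC K G i e (crh D' r) (cph φ) := by
      intro z
      have hw := hW1 (U z) (hU z)
      refine ⟨⟨?_, ?_, ?_⟩, ?_, ?_, ?_⟩
      · rw [hΦ1]
        exact hsup (U z) i fun j σ => (hU z j).1 σ
      · rw [hΦ1]
        exact fun σ v hv => hinv (U z) σ v (hZi (U z) i (hU z) σ v hv)
      · rw [hΦ1]
        intro κ
        funext p
        rw [hbd, hZb (U z) i (hU z)]
        rfl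
      · rw [hΦ2]
        refine hsup _ e fun j σ hσ => ?_
        by_cases h0 : U' z j σ = 0
        · refine (hw j).1 σ fun h => hσ ?_
          change U' z j σ + W (U z) j σ = 0
          rw [h0, h, add_zero]
        · exact (hU' z j).1 σ h0
      · rw [hΦ2]
        refine fun σ v hv => hinv _ σ v fun j q => ?_
        change U' z j σ (q * D'.g v) + W (U z) j σ (q * D'.g v) = U' z j σ q + W (U z) j σ q
        rw [hZi (U' z) e (hU' z) σ v hv j q, (hw j).2 σ v hv q]
      · rw [hΦ2, hΦ1]
        intro κ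
        rw [map_add]
        funext p
        have h2 : (∑ v ∈ κᶜ, (A (U' z) + A (W (U z))) (insert v κ)) p =
            (∑ v ∈ κᶜ, A (U' z) (insert v κ)) p + (∑ v ∈ κᶜ, A (W (U z)) (insert v κ)) p := by
          rw [Finset.sum_apply, Finset.sum_apply, Finset.sum_apply, ← sum_add_distrib]
          rfl
        rw [h2, hbd, hZb (U' z) e (hU' z), zero_add, Finset.sum_apply]
        simp only [hA]
        exact hW2 (U z) (hU z) κ p
    have hinj : Function.Injective (Φ.codRestrict _ hΦ) := by
      intro z w hzw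
      have h2 : Φ z = Φ w := congrArg Subtype.val hzw
      have h3 : U z = U w := by
        funext j σ p
        have h4 : A (U z) σ p = A (U w) σ p := by
          rw [← hΦ1, ← hΦ1, h2]
        exact congrFun (hR p h4) j
      have h5 : U' z = U' w := by
        funext j σ p
        have h4 : A (U' z + W (U z)) σ p = A (U' w + W (U w)) σ p := by
          rw [← hΦ2, ← hΦ2, h2]
        have h6 := congrFun (hR p h4) j
        change U' z j σ p + W (U z) j σ p = U' w j σ p + W (U w) j σ p at h6
        rw [h3] at h6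
        exact add_right_cancel h6
      funext j
      exact Prod.ext (Subtype.ext (congrFun h3 j)) (Subtype.ext (congrFun h5 j))
    have h2 := LinearMap.finrank_le_finrank_of_injective hinj
    rw [Module.finrank_pi_fintype, Finset.sum_const, Finset.card_univ, smul_eq_mul,
      Module.finrank_prod] at h2
    exact h2
  -- (2)
  have h2 : Module.finrank K (ZC K G i e (crh D' r) (cph φ)) ≤
      Module.finrank K (cS G i e D' r φ ⊥) := by
    have hm : ∀ z : ZC K G i e (crh D' r) (cph φ),
        (z : (Finset V → Q → J → K) × (Finset V → Q → J → K)) ∈ cS G i e D' r φ ⊥ := by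
      rintro ⟨z, hz⟩
      refine ⟨hz, fun h hh σ p => ?_⟩
      rw [Subgroup.mem_bot.1 hh, one_mul]
      exact ⟨rfl, rfl⟩
    refine LinearMap.finrank_le_finrank_of_injective
      (f := (ZC K G i e (crh D' r) (cph φ)).subtype.codRestrict _ hm) ?_
    intro x y hxy
    have := congrArg Subtype.val hxy
    exact Subtype.ext this
  have h3 : Module.finrank K (cS G i e D' r φ ⊤) ≤ Module.finrank K (ZC K G i e r φ) := by
    let E : ((Finset V → Q → J → K) × (Finset V → Q → J → K)) →ₗ[K]
        ((Finset V → J → K) × (Finset V → J → K)) :=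
      { toFun := fun x => (fun σ => x.1 σ 1, fun σ => x.2 σ 1)
        map_add' := fun _ _ => rfl
        map_smul' := fun _ _ => rfl }
    have hconst : ∀ x ∈ cS G i e D' r φ ⊤, ∀ σ p, x.1 σ p = x.1 σ 1 ∧ x.2 σ p = x.2 σ 1 := by
      rintro x ⟨-, hx⟩ σ p
      have := hx p (Subgroup.mem_top _) σ 1
      rw [mul_one] at this
      exact this
    have hE : ∀ x : cS G i e D' r φ ⊤, (E.comp (cS G i e D' r φ ⊤).subtype) x ∈
        ZC K G i e r φ := by
      rintro ⟨x, hx⟩
      have hc := hconst x hx
      obtain ⟨⟨⟨h4, h5, h6⟩, h7, h8, h9⟩, -⟩ := hx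
      refine ⟨⟨fun σ hσ => h4 σ fun h0 => hσ ?_, fun σ v hv => ?_, fun κ => ?_⟩,
        fun σ hσ => h7 σ fun h0 => hσ ?_, fun σ v hv => ?_, fun κ => ?_⟩
      · change x.1 σ 1 = 0
        rw [h0]
        rfl
      · change r v (x.1 σ 1) = x.1 σ 1
        have := congrFun (h5 σ v hv) 1
        change r v (x.1 σ (1 * D'.g v)) = x.1 σ 1 at this
        rwa [(hc σ (1 * D'.g v)).1] at this
      · change ∑ v ∈ κᶜ, x.1 (insert v κ) 1 = 0
        have := congrFun (h6 κ) 1
        rw [Finset.sum_apply] at this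
        exact this
      · change x.2 σ 1 = 0
        rw [h0]
        rfl
      · change r v (x.2 σ 1) = x.2 σ 1
        have := congrFun (h8 σ v hv) 1
        change r v (x.2 σ (1 * D'.g v)) = x.2 σ 1 at this
        rwa [(hc σ (1 * D'.g v)).2] at this
      · change ∑ v ∈ κᶜ, x.2 (insert v κ) 1 = φ (fun σ => x.1 σ 1) κ
        have := congrFun (h9 κ) 1
        rw [Finset.sum_apply] at this
        exact this
    refine LinearMap.finrank_le_finrank_of_injective
      (f := (E.comp (cS G i e D' r φ ⊤).subtype).codRestrict _ hE) ?_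
    intro x y hxy
    have h4 := congrArg Subtype.val hxy
    refine Subtype.ext (Prod.ext ?_ ?_)
    · funext σ p
      rw [(hconst _ x.2 σ p).1, (hconst _ y.2 σ p).1]
      exact congrFun (congrArg Prod.fst h4) σ
    · funext σ p
      rw [(hconst _ x.2 σ p).2, (hconst _ y.2 σ p).2]
      exact congrFun (congrArg Prod.snd h4) σ
  -- the chain
  obtain ⟨N, hN⟩ := (IsPGroup.iff_card (p := 2)).1 D'.two
  have h4 : ∀ m ≤ N, ∃ H : Subgroup Q, Nat.card H = 2 ^ m ∧
      Module.finrank K (cS G i e D' r φ ⊥) ≤ 2 ^ m * Module.finrank K (cS G i e D' r φ H) := by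
    intro m
    induction m with
    | zero => exact fun _ => ⟨⊥, by simp, by simp⟩
    | succ m ih =>
      intro hm
      obtain ⟨H, hH1, hH2⟩ := ih (by omega)
      have : Fact (Nat.Prime 2) := ⟨Nat.prime_two⟩
      obtain ⟨H', hH3, hH4⟩ := Sylow.exists_subgroup_card_pow_succ (p := 2) (n := m) (G := Q)
        (by rw [hN]; exact pow_dvd_pow 2 hm) hH1
      refine ⟨H', hH3, hH2.trans ?_⟩
      have h5 := cstep (K := K) G i e D' r φ hH4 (by rw [hH3, hH1, pow_succ]; ring)
      calc 2 ^ m * Module.finrank K (cS G i e D' r φ H)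
          ≤ 2 ^ m * (2 * Module.finrank K (cS G i e D' r φ H')) := Nat.mul_le_mul_left _ h5
        _ = 2 ^ (m + 1) * Module.finrank K (cS G i e D' r φ H') := by rw [pow_succ]; ring
  obtain ⟨H, hH1, hH2⟩ := h4 N le_rfl
  have hHt : H = ⊤ := by
    refine Subgroup.eq_top_of_card_eq H ?_
    rw [hH1, hN]
  rw [hHt] at hH2
  have hcard : Fintype.card Q = 2 ^ N := by rw [← Nat.card_eq_fintype_card, hN]
  rw [hcard]
  exact h1.trans (h2.trans (hH2.trans (Nat.mul_le_mul_left _ h3)))

end Pool.Agent.S6
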