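import Pool.Agent.S6.Cap
import Pool.Agent.H19.SR.Upp

/-!
# Project S6, module S4a: the upper bound for the cone
-/

set_option autoImplicit false
set_option linter.unusedSectionVars false

open Finset

namespace Pool.Agent.S6

open Pool.Agent.H77.SW Pool.Agent.H19.SR

variable {V : Type} [DecidableEq V] [Fintype V] {K : Type} [Field K] [CharP K 2]

/-- rank and nullity on a subspace -/
private theorem UppC_rn {K : Type} [Field K] {M M' : Type} [AddCommGroup M] [Module K M]
    [FiniteDimensional K M] [AddCommGroup M'] [Module K M'] (f : M →ₗ[K] M') (S : Submodule K M) :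
    Module.finrank K (S.map f) + Module.finrank K (S ⊓ LinearMap.ker f : Submodule K M) =
      Module.finrank K S := by
  have h := LinearMap.finrank_range_add_finrank_ker (f.domRestrict S)
  rw [LinearMap.range_domRestrict, LinearMap.ker_domRestrict] at h
  have h2 : Module.finrank K ((LinearMap.ker f).comap S.subtype) =
      Module.finrank K (S ⊓ LinearMap.ker f : Submodule K M) := by
    rw [← Submodule.map_comap_subtype]
    exact (LinearEquiv.finrank_eq (Submodule.equivSubtypeMap S _))
  rw [← h2]
  exact h

/-- the component at `∅` -/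
private def UppC_ev (K : Type) [Field K] (V P : Type) :
    (Finset V → (Finset V × P → K)) →ₗ[K] (Finset V → P → K) where
  toFun z := fun τ p => z τ (∅, p)
  map_add' _ _ := rfl
  map_smul' _ _ := rfl

/-- **The upper bound for the cone** (`W` contains the components `∅` of the first entries). The kernel of
`x ↦ x.1` is in `Zs K G e`, at most `2 ^ |V| * dz e` (`upper_all`). The image `S` of `x ↦ x.1` is in `Zs K G i (rE)`; the
components `∅` of its elements are in `W`, and the kernel of the component `∅` on `Zs K G i (rE)` has dimension at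
most `(2 ^ |V| - 1) * dz i`: `upper` with `W` = the image of `Zs K G i (rE)` under the component `∅`, and rank and
nullity. -/
theorem upperC (G : SimpleGraph V) (i e : ℕ) {P : Type} [Group P] [Fintype P] (D : PG G P)
    (s : Finset V) (t : V → P → K)
    (φ : (Finset V → (Finset V × P → K)) →ₗ[K] (Finset V → (Finset V × P → K)))
    (W : Submodule K (Finset V → P → K))
    (hW : ∀ x ∈ ZC K G i e (rE D s t) φ, (fun σ p => x.1 σ (∅, p)) ∈ W) :
    Module.finrank K (ZC K G i e (rE D s t) φ) ≤
      Module.finrank K W + (2 ^ Fintype.card V - 1) * dz K i D + 2 ^ Fintype.card V * dz K e D := by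
  have h1 := UppC_rn (LinearMap.fst K (Finset V → (Finset V × P → K))
    (Finset V → (Finset V × P → K))) (ZC K G i e (rE D s t) φ)
  have h2 : Module.finrank K (ZC K G i e (rE D s t) φ ⊓ LinearMap.ker (LinearMap.fst K
      (Finset V → (Finset V × P → K)) (Finset V → (Finset V × P → K))) : Submodule K _) ≤
      2 ^ Fintype.card V * dz K e D := by
    refine le_trans ?_ (upper_all G e D s t)
    have h3 : ∀ x ∈ (ZC K G i e (rE D s t) φ ⊓ LinearMap.ker (LinearMap.fst K
        (Finset V → (Finset V × P → K)) (Finset V → (Finset V × P → K)))),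
        x.1 = 0 ∧ x.2 ∈ Zs K G e (rE D s t) := by
      rintro ⟨z, y⟩ ⟨hx, h0⟩
      have h0' : z = 0 := h0
      obtain ⟨-, k1, k2, k3⟩ := mem_ZC.1 hx
      refine ⟨h0', mem_Zs.2 ⟨k1, k2, fun κ => ?_⟩⟩
      have := k3 κ
      rw [this]
      show φ z κ = 0
      rw [h0', map_zero]
      rfl
    refine LinearMap.finrank_le_finrank_of_injective
      (f := ((LinearMap.snd K (Finset V → (Finset V × P → K)) (Finset V → (Finset V × P → K))).comp
        (Submodule.subtype _)).codRestrict _ fun x => (h3 x.1 x.2).2) ?_
    intro a b hab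
    have h4 : a.1.2 = b.1.2 := congrArg Subtype.val hab
    refine Subtype.ext (Prod.ext ?_ h4)
    rw [(h3 a.1 a.2).1, (h3 b.1 b.2).1]
  have hT : (ZC K G i e (rE D s t) φ).map (LinearMap.fst K (Finset V → (Finset V × P → K))
      (Finset V → (Finset V × P → K))) ≤ Zs K G i (rE D s t) := by
    rintro _ ⟨x, hx, rfl⟩
    exact (mem_ZC.1 hx).1
  have h3 := UppC_rn (UppC_ev K V P) ((ZC K G i e (rE D s t) φ).map (LinearMap.fst K
    (Finset V → (Finset V × P → K)) (Finset V → (Finset V × P → K))))
  have h4 : Module.finrank K (((ZC K G i e (rE D s t) φ).map (LinearMap.fst K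
      (Finset V → (Finset V × P → K)) (Finset V → (Finset V × P → K)))).map (UppC_ev K V P)) ≤
      Module.finrank K W := by
    refine Submodule.finrank_mono ?_
    rintro _ ⟨_, ⟨x, hx, rfl⟩, rfl⟩
    exact hW x hx
  have h5 := UppC_rn (UppC_ev K V P) (Zs K G i (rE D s t))
  have h6 := upper G i D s t ((Zs K G i (rE D s t)).map (UppC_ev K V P)) fun z hz => ⟨z, hz, rfl⟩
  have h7 : Module.finrank K ((ZC K G i e (rE D s t) φ).map (LinearMap.fst K
      (Finset V → (Finset V × P → K)) (Finset V → (Finset V × P → K))) ⊓
        LinearMap.ker (UppC_ev K V P) : Submodule K _) ≤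
      Module.finrank K (Zs K G i (rE D s t) ⊓ LinearMap.ker (UppC_ev K V P) : Submodule K _) :=
    Submodule.finrank_mono (inf_le_inf_right _ hT)
  omega

end Pool.Agent.S6
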